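import Pool.Agent.H459.TW2.Def

/-!
# The local conditions, residue degree at most two (helper459)

After `UT/Cnd.lean`.
-/

set_option autoImplicit false
set_option linter.all false

open Polynomial IsDedekindDomain NumberField WithZero
open scoped Classical IntermediateField

namespace Pool.Agent.H459.TW2

open Pool.Agent.H459.UF
open Pool.Agent.H459.UT
open Pool.Agent.N874.PP (Ev Sq1 U0)
open Pool.Agent.N874.JM (LocF)
open Pool.Agent.N783.PQ (LocIm)
open Pool.Agent.N783.PF (IsGen rd fF GoodS Cg sp)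
open Pool.Agent.N874.PM (ev_down sq_down ev_sq ev_mul)
open Pool.Agent.N874.QM (locIm_congr locIm_sq locIm_map)

section

variable {F K L : Type} [Field F] [NumberField F] [Field K] [NumberField K] [Field L]
  [NumberField L] [Algebra F K] [Algebra K L] {f : (𝓞 F)[X]} {θ : L}

theorem q_topL {J : Finset ℕ} {𝔮 : ℕ → Ideal (𝓞 F)} (H : DatT f J 𝔮) (h : Cub K f θ) {q : ℕ}
    (hq : q ∈ J) {P : HeightOneSpectrum (𝓞 L)} (hP : (below F (below K P)).asIdeal = 𝔮 q)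
    (hd : DL F K f J 𝔮) (hθ : P.valuation L θ = 1) :
    P.valuation L (q : L) = WithZero.exp (-1 : ℤ) ∧
    (∀ c : 𝓞 F, c ∉ 𝔮 q → Sq1 P (algebraMap K L (algebraMap F K (c : F)))) ∧
    P.valuation L (aeval θ (derivative (fb K f))) = 1 := by
  obtain ⟨g, W, S, r, Pp, hg, hdeg, hS, hcg, hJS⟩ := H.dat
  letI : Algebra F L := ((algebraMap K L).comp (algebraMap F K)).toAlgebra
  haveI : IsScalarTower F K L := IsScalarTower.of_algebraMap_eq fun _ => rfl
  obtain ⟨θ₀, hθ₀, hc⟩ := cub_sub (K₁ := F) H.mon h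
  have hgen : IsGen g f θ₀ := by
    have := hc.isGen H.mon hdeg
    rwa [fo_self] at this
  have hdL : Dns F⟮θ⟯ P := hd L θ h q hq P hP hθ
  have hagr := agr_of_dns hdL
  set P₀ := below F⟮θ⟯ P with hP₀
  have hov : Pool.Agent.N783.PF.Ov (𝔮 q) P₀ := by
    intro a ha
    rw [← hP] at ha
    have h1 : algebraMap (𝓞 K) (𝓞 L) (algebraMap (𝓞 F) (𝓞 K) a) ∈ P.asIdeal := ha
    show algebraMap (𝓞 F⟮θ⟯) (𝓞 L) (algebraMap (𝓞 F) (𝓞 F⟮θ⟯) a) ∈ P.asIdeal
    rw [← IsScalarTower.algebraMap_apply] at h1 ⊢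
    exact h1
  have hv0 : P₀.valuation F⟮θ⟯ θ₀ = 1 := by
    rw [← hagr, hθ₀]
    exact hθ
  have hqS := hJS hq
  obtain ⟨𝔓₁, 𝔓₂, e1, e2, e3, e4, e5, e6, e7⟩ :=
    exq g W F F⟮θ⟯ f θ₀ S 𝔮 r Pp hg hgen hS q hqS (hcg q hqS)
  obtain ⟨c1, -, c3, -⟩ :=
    csq g W F F⟮θ⟯ f θ₀ S 𝔮 r Pp hg hgen hS q hqS (hcg q hqS) P₀ hov hv0
  refine ⟨?_, ?_, ?_⟩
  · rw [← map_natCast (algebraMap F⟮θ⟯ L) q, hagr]
    rw [← hP₀]
    rcases e7 P₀ hov with h1 | h1
    · rw [h1]
      exact e5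
    · rw [h1]
      exact e6
  · intro c hcq
    obtain ⟨s, hs⟩ := c1 c hcq
    refine ⟨algebraMap F⟮θ⟯ L s, ?_⟩
    have e : algebraMap K L (algebraMap F K (c : F)) =
        algebraMap F⟮θ⟯ L (algebraMap F F⟮θ⟯ (c : F)) :=
      (IsScalarTower.algebraMap_apply F K L _).symm.trans
        (IsScalarTower.algebraMap_apply F F⟮θ⟯ L _)
    rw [e, ← map_pow, ← map_sub, hagr, hagr]
    exact hs
  · have e : aeval θ (derivative (fb K f)) =
        algebraMap F⟮θ⟯ L (aeval θ₀ (derivative (fF f))) := by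
      rw [← aeval_algebraMap_apply, hθ₀, fb, derivative_map, aeval_map_algebraMap]
    rw [e, hagr]
    exact c3

end

section cls

variable {F K L M : Type} [Field F] [NumberField F] [Field K] [NumberField K] [Field L]
  [NumberField L] [Field M] [NumberField M] [Algebra F K] [Algebra K L] [Algebra K M]
  [Algebra F M] [IsScalarTower F K M] {Bw : HeightOneSpectrum (𝓞 F) → Prop} {T : M[X] → Prop}
  {f : (𝓞 F)[X]} {θ : L} {J : Finset ℕ} {𝔮 : ℕ → Ideal (𝓞 F)}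

theorem cnd_mulL (H : DatT f J 𝔮) (hT : TOK F M f T) (hc : Cub K f θ) (hD : DL F K f J 𝔮)
    {p p' : K[X]} (h0 : aeval θ p ≠ 0) (h0' : aeval θ p' ≠ 0) (h : CndT F M Bw T f J 𝔮 θ p)
    (h' : CndT F M Bw T f J 𝔮 θ p') : CndT F M Bw T f J 𝔮 θ (p * p') where
  ev P h1 h2 h3 := by
    rw [map_mul]
    exact ev_mul (h.ev P h1 h2 h3) (h'.ev P h1 h2 h3)
  u0 q hq P h1 h3 := by
    rw [map_mul]
    obtain ⟨hqp, hq8, -, hqm⟩ := H.prime hq
    have h1' : (below F (below K P)).asIdeal = 𝔮 q := h1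
    obtain ⟨e1, -, -⟩ := q_topL H hc hq h1' hD h3
    have hϖ : ¬ Ev P ((q : L) * θ) := by
      apply Pool.Agent.N891.PQ.not_ev_exp
      rw [map_mul, e1, h3, mul_one]
    have h5 : (q : L) * θ ≠ 0 := by
      intro h6
      apply hϖ
      rw [h6]
      exact ⟨0, by simp⟩
    have hov : Pool.Agent.N783.PQ.Ov q P := nat_mem_of_below (F := F) (K := K) (by
      rw [h1']
      exact hqm)
    exact ((Pool.Agent.N457.PQ.cls L q P _ hqp (by omega) hov h5 hϖ _ _ h0 h0').2).2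
      ⟨fun _ => h'.u0 q hq P h1 h3, fun _ => h.u0 q hq P h1 h3⟩
  two := by
    rw [Polynomial.map_mul]
    exact hT.mul _ _ h.two h'.two
  real σ := by
    rw [Polynomial.map_mul]
    exact Pool.Agent.N891.PQ.LocIm.mul (h.real σ) (h'.real σ)

end cls

end Pool.Agent.H459.TW2
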