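import Pool.Agent.H459.UT.Quad

/-!
# Twisting primes with residue degree at most two in the extensions: definitions (helper459)
-/

set_option autoImplicit false
set_option linter.all false

open Polynomial IsDedekindDomain NumberField WithZero
open scoped Classical IntermediateField

namespace Pool.Agent.H459.TW2

open Pool.Agent.H459.UF (below Dns Unr Cub)

/-- The residue degree of `w` over `F` divides `2`. -/
def R2 (F : Type) {K : Type} [Field F] [NumberField F] [Field K] [NumberField K] [Algebra F K]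
    (w : HeightOneSpectrum (𝓞 K)) : Prop :=
  ∀ x : 𝓞 K, x ^ (Nat.card (𝓞 F ⧸ (below F w).asIdeal) ^ 2) - x ∈ w.asIdeal

/-- Unramified over `F` with residue degree at most two, at the primes over the `𝔮 q`. -/
def DR (F K : Type) [Field F] [NumberField F] [Field K] [NumberField K] [Algebra F K]
    (J : Finset ℕ) (𝔮 : ℕ → Ideal (𝓞 F)) : Prop :=
  ∀ q ∈ J, ∀ w : HeightOneSpectrum (𝓞 K), (below F w).asIdeal = 𝔮 q →
    Unr F K (below F w) ∧ R2 F w

/-- `F(θ)` is dense in `K(θ)` at the primes over `𝔮 q` at which `θ` is a unit. -/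
def DL (F K : Type) [Field F] [NumberField F] [Field K] [NumberField K] [Algebra F K]
    (f : (𝓞 F)[X]) (J : Finset ℕ) (𝔮 : ℕ → Ideal (𝓞 F)) : Prop :=
  ∀ (L : Type) [Field L] [NumberField L] [Algebra K L] [Algebra F L] [IsScalarTower F K L]
    (θ : L), Cub K f θ → ∀ q ∈ J, ∀ P : HeightOneSpectrum (𝓞 L),
    (below F (below K P)).asIdeal = 𝔮 q → P.valuation L θ = 1 → Dns F⟮θ⟯ P

end Pool.Agent.H459.TW2
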