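import Pool.Agent.H459.TW2.Def
import Pool.Agent.H459.TWR.Bch

/-!
# Residue degrees in base changes of extensions of dihedral type, without a root of `d` in `F`
-/

set_option autoImplicit false
set_option linter.all false

open Polynomial IsDedekindDomain NumberField WithZero MulAction
open scoped Classical IntermediateField Pointwise

namespace Pool.Agent.H53.TW2

open Pool.Agent.H459.UF (below mem_below)
open Pool.Agent.H459.TWR Pool.Agent.H459.TW2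

/-- **DIH.** `M = F L`, `L / ℚ` of dihedral type: the residue degrees over `F` divide `2`. -/
theorem degC (F M : Type) [Field F] [NumberField F] [Field M] [NumberField M] [Algebra F M]
    [IsGalois F M] (L : IntermediateField ℚ M) [IsGalois ℚ L]
    (hgen : IntermediateField.adjoin F (L : Set M) = ⊤) (d : ℤ)
    (s : L) (hs : s ^ 2 = (d : L))
    (hdi : ∀ σ : L ≃ₐ[ℚ] L, σ s ≠ s → ∀ x, σ (σ x) = x)
    (q : ℕ) (hq : q.Prime) (hq2 : q % 2 = 1) (hqd : (q : ℤ) ∣ d ^ ((q - 1) / 2) + 1)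
    (hunr : ∀ P : HeightOneSpectrum (𝓞 L), (q : 𝓞 L) ∉ P.asIdeal ^ 2)
    (P : HeightOneSpectrum (𝓞 M)) (hqP : (q : 𝓞 M) ∈ P.asIdeal) : R2 F P := by
  intro x
  -- the root of `d` in `L`
  have hsi : IsIntegral ℤ s := by
    refine ⟨Polynomial.X ^ 2 - Polynomial.C d, Polynomial.monic_X_pow_sub_C d two_ne_zero, ?_⟩
    rw [Polynomial.eval₂_sub, Polynomial.eval₂_X_pow, Polynomial.eval₂_C, hs]
    simp
  obtain ⟨s', hs'⟩ : ∃ s' : 𝓞 L, (s' : L) = s := ⟨⟨s, hsi⟩, rfl⟩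
  have hs'2 : s' ^ 2 = (d : 𝓞 L) := by
    apply RingOfIntegers.ext
    show algebraMap (𝓞 L) L (s' ^ 2) = algebraMap (𝓞 L) L (d : 𝓞 L)
    rw [map_pow, map_intCast]
    show (s' : L) ^ 2 = _
    rw [hs', hs]
  -- the primes
  obtain ⟨Q, hQ⟩ : ∃ Q, Q = below L P := ⟨_, rfl⟩
  obtain ⟨v, hv⟩ : ∃ v, v = below F P := ⟨_, rfl⟩
  have hqQ : (q : 𝓞 L) ∈ Q.asIdeal := by rw [hQ, mem_below, map_natCast]; exact hqP
  have hqv : (q : 𝓞 F) ∈ v.asIdeal := by rw [hv, mem_below, map_natCast]; exact hqP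
  have hL := frob_two hs'2 (by rw [hs']; exact hdi) hq hq2 hqd Q hqQ
  -- the Frobenius element of `P`
  haveI : Finite (𝓞 M ⧸ P.asIdeal) := Ideal.finiteQuotientOfFreeOfNeBot P.asIdeal P.ne_bot
  haveI : Finite (𝓞 F ⧸ v.asIdeal) := Ideal.finiteQuotientOfFreeOfNeBot v.asIdeal v.ne_bot
  haveI := P.isPrime
  haveI := P.isMaximal
  haveI := v.isMaximal
  letI : Field (𝓞 M ⧸ P.asIdeal) := Ideal.Quotient.field P.asIdeal
  letI : Field (𝓞 F ⧸ v.asIdeal) := Ideal.Quotient.field v.asIdeal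
  haveI : Fintype (𝓞 M ⧸ P.asIdeal) := Fintype.ofFinite _
  haveI : Fintype (𝓞 F ⧸ v.asIdeal) := Fintype.ofFinite _
  haveI := charP_res hq v.isPrime hqv
  obtain ⟨φ, hφ⟩ := IsArithFrobAt.exists_of_isInvariant (𝓞 F) (M ≃ₐ[F] M) P.asIdeal
  obtain ⟨N, hN⟩ : ∃ N : ℕ, N = Fintype.card (𝓞 F ⧸ v.asIdeal) := ⟨_, rfl⟩
  have hund : P.asIdeal.under (𝓞 F) = v.asIdeal := by rw [hv]; rfl
  have hfr : ∀ z : 𝓞 M, φ • z - z ^ N ∈ P.asIdeal := by
    intro z
    have h1 := hφ z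
    rw [hund, Nat.card_eq_fintype_card, ← hN] at h1
    exact h1
  -- its square
  have hfr2 : ∀ z : 𝓞 M, (φ * φ) • z - z ^ (N ^ 2) ∈ P.asIdeal := by
    intro z
    have h1 := hfr (φ • z)
    have h2 : (φ • z) ^ N - (z ^ N) ^ N ∈ P.asIdeal :=
      Ideal.mem_of_dvd P.asIdeal (sub_dvd_pow_sub_pow (φ • z) (z ^ N) N) (hfr z)
    have e : (φ * φ) • z - z ^ (N ^ 2) =
        (φ • (φ • z) - (φ • z) ^ N) + ((φ • z) ^ N - (z ^ N) ^ N) := by
      rw [mul_smul, sub_add_sub_cancel, pow_two N, pow_mul]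
    rw [e]
    exact Ideal.add_mem _ h1 h2
  -- `N = q ^ n`
  obtain ⟨n, -, hn⟩ := FiniteField.card (𝓞 F ⧸ v.asIdeal) q
  have hm : N ^ 2 = (q ^ 2) ^ (n : ℕ) := by
    rw [hN, hn, ← pow_mul, ← pow_mul, mul_comm]
  have hLN : ∀ z : 𝓞 L, z ^ (N ^ 2) - z ∈ Q.asIdeal := by
    intro z
    rw [hm]
    have : ∀ j : ℕ, z ^ ((q ^ 2) ^ j) - z ∈ Q.asIdeal := by
      intro j
      induction j with
      | zero => rw [pow_zero, pow_one, sub_self]; exact Ideal.zero_mem _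
      | succ j ih =>
        have h1 := hL (z ^ ((q ^ 2) ^ j))
        have e : z ^ ((q ^ 2) ^ (j + 1)) - z = ((z ^ ((q ^ 2) ^ j)) ^ (q ^ 2) - z ^ ((q ^ 2) ^ j)) +
            (z ^ ((q ^ 2) ^ j) - z) := by
          rw [pow_succ (q ^ 2) j, pow_mul z ((q ^ 2) ^ j) (q ^ 2)]
          exact (sub_add_sub_cancel _ _ _).symm
        rw [e]
        exact Ideal.add_mem _ h1 ih
    exact this n
  -- the restriction to `L` is trivial
  obtain ⟨ψ, hψ⟩ : ∃ ψ : M ≃ₐ[F] M, ψ = φ * φ := ⟨_, rfl⟩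
  rw [← hψ] at hfr2
  obtain ⟨σ, hσ⟩ : ∃ σ : L ≃ₐ[ℚ] L, ∀ z : L, algebraMap L M (σ z) = ψ (algebraMap L M z) :=
    ⟨(ψ.restrictScalars ℚ).restrictNormal L, fun z =>
      AlgEquiv.restrictNormal_commutes (ψ.restrictScalars ℚ) L z⟩
  have hσ1 : σ = 1 := by
    refine iner_one hq Q hqQ (hunr Q) σ fun z => ?_
    rw [hQ, mem_below, map_sub]
    have e1 : algebraMap (𝓞 L) (𝓞 M) (σ • z) = ψ • (algebraMap (𝓞 L) (𝓞 M) z) :=
      RingOfIntegers.ext (hσ (z : L))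
    rw [e1]
    have h1 := hfr2 (algebraMap (𝓞 L) (𝓞 M) z)
    have h2 := hLN z
    rw [hQ, mem_below, map_sub, map_pow] at h2
    have := Ideal.add_mem _ h1 h2
    simpa using this
  have hψ1 : ∀ z : M, ψ z = z := by
    have h1 : IntermediateField.adjoin F (L : Set M) ≤
        IntermediateField.fixedField (Subgroup.zpowers ψ) := by
      rw [IntermediateField.adjoin_le_iff]
      intro z hz
      rw [SetLike.mem_coe, IntermediateField.mem_fixedField_iff]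
      have h2 : ψ z = z := by
        have h3 := hσ ⟨z, hz⟩
        rw [hσ1] at h3
        exact h3.symm
      intro τ hτ
      obtain ⟨j, rfl⟩ := Subgroup.mem_zpowers_iff.1 hτ
      have h4 : ψ ∈ MulAction.stabilizer (M ≃ₐ[F] M) z := h2
      exact (Subgroup.zpow_mem _ h4 j : (ψ ^ j) ∈ MulAction.stabilizer (M ≃ₐ[F] M) z)
    intro z
    have h2 : z ∈ IntermediateField.fixedField (Subgroup.zpowers ψ) :=
      h1 (by rw [hgen]; exact IntermediateField.mem_top)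
    rw [IntermediateField.mem_fixedField_iff] at h2
    exact h2 ψ (Subgroup.mem_zpowers ψ)
  have h1 : ψ • x = x := RingOfIntegers.ext (hψ1 (x : M))
  have h2 := hfr2 x
  rw [h1] at h2
  have h3 : x ^ (N ^ 2) - x ∈ P.asIdeal := by
    rw [← neg_sub]
    exact neg_mem h2
  have h4 : Nat.card (𝓞 F ⧸ (below F P).asIdeal) = N := by
    rw [← hv, Nat.card_eq_fintype_card, hN]
  rw [h4]
  exact h3

end Pool.Agent.H53.TW2
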