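import Pool.Agent.H459.TW2.Main
import Pool.Agent.H459.TW2.DegC
import Pool.Agent.H459.TWR.Dih

/-!
# Primes of residue degree at most two in the members of a family (helper459)

After `TWR/Dih.lean`; `DegC.lean` is due to helper53, `Dns.lean` to helper914.
-/

set_option autoImplicit false
set_option linter.all false

open NumberField IsDedekindDomain MulAction
open scoped Classical Pointwise

namespace Pool.Agent.H459.TW2

open Pool.Agent.H459.UF (Unr Deg1 below mem_below)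
open Pool.Agent.H459.UT (exists_kI)

/-- Residue degree one. -/
theorem r2_of_deg1 {F M : Type} [Field F] [NumberField F] [Field M] [NumberField M] [Algebra F M]
    {w : HeightOneSpectrum (𝓞 M)} (h : Deg1 F M (below F w)) : R2 F w := by
  intro x
  obtain ⟨y, hy⟩ := h w (by
    rw [Ideal.map_le_iff_le_comap]
    exact fun a ha => (mem_below w a).1 ha) x
  haveI : (below F w).asIdeal.IsMaximal := (below F w).isMaximal
  letI : Field (𝓞 F ⧸ (below F w).asIdeal) := Ideal.Quotient.field _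
  haveI : Finite (𝓞 F ⧸ (below F w).asIdeal) :=
    Ideal.finiteQuotientOfFreeOfNeBot _ (below F w).ne_bot
  haveI : Fintype (𝓞 F ⧸ (below F w).asIdeal) := Fintype.ofFinite _
  obtain ⟨N, hN⟩ : ∃ N : ℕ, N = Nat.card (𝓞 F ⧸ (below F w).asIdeal) := ⟨_, rfl⟩
  rw [← hN]
  have h1 : ∀ a : 𝓞 F ⧸ (below F w).asIdeal, a ^ N = a := by
    intro a
    rw [hN, Nat.card_eq_fintype_card]
    exact FiniteField.pow_card a
  have h2 : y ^ (N ^ 2) - y ∈ (below F w).asIdeal := by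
    rw [← Ideal.Quotient.eq, map_pow, pow_two, pow_mul, h1, h1]
  have h3 := (mem_below w _).1 h2
  rw [map_sub, map_pow] at h3
  have h4 : x ^ (N ^ 2) - (algebraMap (𝓞 F) (𝓞 M) y) ^ (N ^ 2) ∈ w.asIdeal :=
    Ideal.mem_of_dvd w.asIdeal (sub_dvd_pow_sub_pow _ _ _) hy
  have e : x ^ (N ^ 2) - x = (x ^ (N ^ 2) - (algebraMap (𝓞 F) (𝓞 M) y) ^ (N ^ 2)) +
      ((algebraMap (𝓞 F) (𝓞 M) y) ^ (N ^ 2) - algebraMap (𝓞 F) (𝓞 M) y) -
      (x - algebraMap (𝓞 F) (𝓞 M) y) := by ring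
  rw [e]
  exact Ideal.sub_mem _ (Ideal.add_mem _ h4 h3) hy

variable (F : Type) [Field F] [NumberField F] {ι : Type} (M : ι → Type) [∀ i, Field (M i)]
  [∀ i, NumberField (M i)] [∀ i, Algebra F (M i)]

/-- Almost all primes are unramified. -/
theorem inf_short (hram : {v : HeightOneSpectrum (𝓞 F) | ∃ i, ¬ Unr F (M i) v}.Finite)
    (h : {q : ℕ | q.Prime ∧ q % 8 = 1 ∧ ∀ i, ∀ w : HeightOneSpectrum (𝓞 (M i)),
      (q : 𝓞 (M i)) ∈ w.asIdeal → R2 F w}.Infinite) :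
    {q : ℕ | q.Prime ∧ q % 8 = 1 ∧ ∀ i, ∀ w : HeightOneSpectrum (𝓞 (M i)),
      (q : 𝓞 (M i)) ∈ w.asIdeal → Unr F (M i) (below F w) ∧ R2 F w}.Infinite := by
  obtain ⟨k, hk, hkunr⟩ := exists_kI M hram
  refine (h.sdiff (Set.finite_Iic k)).mono ?_
  rintro q ⟨⟨a1, a2, a3⟩, a4⟩
  rw [Set.mem_Iic, not_le] at a4
  refine ⟨a1, a2, fun i w hw => ⟨hkunr i _ ?_, a3 i w hw⟩⟩
  intro hkv
  have hv : (q : 𝓞 F) ∈ (below F w).asIdeal := by
    rw [mem_below, map_natCast]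
    exact hw
  have hc : IsCoprime (q : ℤ) (k : ℤ) := by
    rw [Nat.isCoprime_iff_coprime]
    exact (Nat.Prime.coprime_iff_not_dvd a1).2 fun h => by
      have := Nat.le_of_dvd hk h
      omega
  obtain ⟨u, z, huz⟩ := hc
  apply (below F w).isPrime.ne_top
  rw [Ideal.eq_top_iff_one]
  have e : (1 : 𝓞 F) = (u : 𝓞 F) * (q : 𝓞 F) + (z : 𝓞 F) * (k : 𝓞 F) := by
    exact_mod_cast (congrArg (fun z : ℤ => (z : 𝓞 F)) huz).symm
  rw [e]
  exact Ideal.add_mem _ (Ideal.mul_mem_left _ _ hv) (Ideal.mul_mem_left _ _ hkv)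

/-- A family with a largest member. -/
theorem short_top (h : ∃ i, ∀ j, Nonempty (M j →ₐ[F] M i)) :
    {q : ℕ | q.Prime ∧ q % 8 = 1 ∧ ∀ i, ∀ w : HeightOneSpectrum (𝓞 (M i)),
      (q : 𝓞 (M i)) ∈ w.asIdeal → R2 F w}.Infinite := by
  refine (Pool.Agent.H459.TWR.inf_top F M h).mono ?_
  rintro q ⟨h1, h2, h3⟩
  refine ⟨h1, h2, fun i w hw => r2_of_deg1 (h3 i (below F w) ?_).2⟩
  rw [mem_below, map_natCast]
  exact hw

/-- Families of dihedral type. -/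
theorem short_dih [∀ i, IsGalois F (M i)] (d : ℤ) (hd : Squarefree d) (h1 : d ≠ 1) (h2 : d ≠ -1)
    (h3 : d ≠ 2) (h4 : d ≠ -2) (L : ∀ i, IntermediateField ℚ (M i))
    (hur : {q : ℕ | q.Prime ∧ ∃ i, ∃ P : HeightOneSpectrum (𝓞 (L i)),
      (q : 𝓞 (L i)) ∈ P.asIdeal ^ 2}.Finite)
    (hL : ∀ i, IsGalois ℚ (L i) ∧ IntermediateField.adjoin F (L i : Set (M i)) = ⊤ ∧
      ∃ s : L i, s ^ 2 = (d : L i) ∧ ∀ σ : L i ≃ₐ[ℚ] L i, σ s ≠ s → ∀ x, σ (σ x) = x) :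
    {q : ℕ | q.Prime ∧ q % 8 = 1 ∧ ∀ i, ∀ w : HeightOneSpectrum (𝓞 (M i)),
      (q : 𝓞 (M i)) ∈ w.asIdeal → R2 F w}.Infinite := by
  refine ((Pool.Agent.H241.TWR.inf d hd h1 h2 h3 h4).sdiff hur).mono ?_
  rintro q ⟨⟨a1, a2, a3⟩, a5⟩
  refine ⟨a1, a2, fun i w hw => ?_⟩
  obtain ⟨hg, hgen, s, hs, hdi⟩ := hL i
  haveI := hg
  exact Pool.Agent.H53.TW2.degC F (M i) (L i) hgen d s hs hdi q a1 (by omega) a3
    (fun Q hQ => a5 ⟨a1, i, Q, hQ⟩) w hw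

end Pool.Agent.H459.TW2
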