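import Pool.Agent.H459.TW2.Def
import Pool.Agent.H459.UT.Cnd
import Pool.Agent.H459.UF.Iner

/-!
# `F(θ)` is dense in `K(θ)` at unramified primes of residue degree at most two (helper914)
-/

set_option autoImplicit false
set_option linter.all false

open Polynomial IsDedekindDomain NumberField WithZero
open scoped Classical IntermediateField

namespace Pool.Agent.H459.TW2.DNS914

open Pool.Agent.H459.UF
open Pool.Agent.H459.UT
open Pool.Agent.N783.PF (IsGen rd fF GoodS Cg sp dsc Ov)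
open Pool.Agent.N73.PF (ev ev_L ev_f ev_ker ev_C ev_X ov_iff mem_of_dvd theta_ex rd_surj
  map_eq_of_cg coeff_of_rd_eq_zero ev_mem_of_coeff algMap_coe rd_X rd_C rd_mul field_adj fin_quot
  card_adj irrX hbar psi_surj ker_max mem_or sq_mem adj_facts kappa_facts)

/-- The cardinality of the residue field. -/
theorem card_res {F L : Type} [Field F] [NumberField F] [Field L] [NumberField L] [Algebra F L]
    {g W : ℕ} {f : (𝓞 F)[X]} {θ : L} {S : Finset ℕ} {𝔮 : ℕ → Ideal (𝓞 F)} {h P : ℕ → (𝓞 F)[X]}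
    (hg : 1 ≤ g) (hG : IsGen g f θ) (hS : GoodS g W S 𝔮 h P) {q : ℕ} (hqS : q ∈ S)
    (hcg : Cg (𝔮 q) f (X * h q)) (𝔓 : HeightOneSpectrum (𝓞 L)) (hov : Ov (𝔮 q) 𝔓)
    (hv : 𝔓.valuation L θ = 1) :
    Nat.card (𝓞 L ⧸ 𝔓.asIdeal) = Nat.card (𝓞 F ⧸ 𝔮 q) ^ (2 * g) := by
  have hdq := (dsc_q hg hG.mon hG.deg hS hqS hcg).2
  obtain ⟨hq, -, -, h8, -, hprime, hmem𝔮, hm, hdeg, hirr, -⟩ := hS q hqS
  obtain ⟨𝔭, h𝔭⟩ : ∃ 𝔭 : Ideal (𝓞 F), 𝔭 = 𝔮 q := ⟨_, rfl⟩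
  rw [← h𝔭] at hprime hmem𝔮 hirr hcg hov hdq ⊢
  have hq0 : (q : 𝓞 F) ≠ 0 := by exact_mod_cast hq.ne_zero
  have hne : 𝔭 ≠ ⊥ := fun h0 => hq0 (by rwa [h0, Ideal.mem_bot] at hmem𝔮)
  have hmax : 𝔭.IsMaximal := hprime.isMaximal hne
  obtain ⟨hbd, hbX⟩ := hbar hmax hg hm hdeg
  obtain ⟨t, ht⟩ := theta_ex hG
  have hfb : rd 𝔭 f = X * rd 𝔭 (h q) := by
    rw [map_eq_of_cg hcg, rd, Polynomial.map_mul, Polynomial.map_X]
  obtain ⟨ψ, hψ⟩ := ex_psi hG hprime hne hdq ht (rd 𝔭 (h q))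
    (by rw [hfb]; exact ⟨X, X_mul⟩)
  have htn : t ∉ 𝔓.asIdeal := by
    rw [← ht] at hv
    exact 𝔓.valuation_eq_one_iff_notMem.mp hv
  have hker : 𝔓.asIdeal = RingHom.ker ψ :=
    eq_ker hG ht hmax hne hdq hirr hψ hov ((mem_or hG ht hcg hov).resolve_left htn)
  obtain ⟨c1, c4⟩ := card_adj hmax hne hirr
  rw [hker, Nat.card_congr (RingHom.quotientKerEquivOfSurjective (psi_surj hψ)).toEquiv, c1, hbd]

/-- The cardinality of the residue field of `𝔮 q`. -/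
theorem card_q {F : Type} [Field F] [NumberField F]
    {g W : ℕ} {S : Finset ℕ} {𝔮 : ℕ → Ideal (𝓞 F)} {h P : ℕ → (𝓞 F)[X]}
    (hS : GoodS g W S 𝔮 h P) {q : ℕ} (hqS : q ∈ S) :
    ∃ e : ℕ, Nat.card (𝓞 F ⧸ 𝔮 q) = q ^ e := by
  obtain ⟨hq, -, -, h8, -, hprime, hmem𝔮, hm, hdeg, hirr, -⟩ := hS q hqS
  obtain ⟨𝔭, h𝔭⟩ : ∃ 𝔭 : Ideal (𝓞 F), 𝔭 = 𝔮 q := ⟨_, rfl⟩
  rw [← h𝔭] at hprime hmem𝔮 ⊢
  have hq0 : (q : 𝓞 F) ≠ 0 := by exact_mod_cast hq.ne_zero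
  have hne : 𝔭 ≠ ⊥ := fun h0 => hq0 (by rwa [h0, Ideal.mem_bot] at hmem𝔮)
  have hmax : 𝔭.IsMaximal := hprime.isMaximal hne
  have f3 : Finite (𝓞 F ⧸ 𝔭) := fin_quot hne
  have hκ0 : ((q : ℕ) : 𝓞 F ⧸ 𝔭) = 0 := by
    rw [← map_natCast (Ideal.Quotient.mk 𝔭)]
    exact Ideal.Quotient.eq_zero_iff_mem.2 hmem𝔮
  let iκ : Field (𝓞 F ⧸ 𝔭) := Ideal.Quotient.field _
  obtain ⟨k1, k2, e, ke⟩ := kappa_facts (κ := 𝓞 F ⧸ 𝔭) hq h8 hκ0
  exact ⟨e, ke⟩

/-- Density from the residue fields and a uniformizer. -/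
theorem dns_of_unif {K L : Type} [Field K] [NumberField K] [Field L] [NumberField L] [Algebra K L]
    {P : HeightOneSpectrum (𝓞 L)} {π : K}
    (hπ : P.valuation L (algebraMap K L π) = WithZero.exp (-1 : ℤ))
    (hres : ∀ x : 𝓞 L, ∃ y : 𝓞 K, x - algebraMap (𝓞 K) (𝓞 L) y ∈ P.asIdeal) : Dns K P := by
  have hπ0 : algebraMap K L π ≠ 0 := by
    intro h0
    rw [h0, map_zero] at hπ
    exact WithZero.exp_ne_zero hπ.symm
  have hpow : ∀ n : ℕ, P.valuation L (algebraMap K L π ^ n) = WithZero.exp (-(n : ℤ)) := by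
    intro n
    rw [map_pow, hπ, ← WithZero.exp_nsmul]
    congr 1
    simp
  have key : ∀ (x : L), P.valuation L x ≤ 1 → ∀ n : ℕ, ∃ y : K,
      P.valuation L (x - algebraMap K L y) ≤ WithZero.exp (-(n : ℤ)) := by
    intro x hx n
    induction n with
    | zero => exact ⟨0, by simpa using hx⟩
    | succ n ih =>
      obtain ⟨y, hy⟩ := ih
      set z : L := (x - algebraMap K L y) / algebraMap K L π ^ n with hz
      have hz1 : P.valuation L z ≤ 1 := by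
        rw [hz, map_div₀, hpow]
        exact (div_le_one₀ (WithZero.exp_pos)).2 hy
      obtain ⟨z₀, hz₀⟩ := P.exists_valuation_sub_lt_of_integer hz1 1
      rw [Units.val_one] at hz₀
      obtain ⟨y₀, hy₀⟩ := hres z₀
      refine ⟨y + π ^ n * algebraMap (𝓞 K) K y₀, ?_⟩
      have e : x - algebraMap K L (y + π ^ n * algebraMap (𝓞 K) K y₀) =
          algebraMap K L π ^ n * (z - algebraMap (𝓞 L) L (algebraMap (𝓞 K) (𝓞 L) y₀)) := by
        rw [hz, mul_sub, mul_div_cancel₀ _ (pow_ne_zero n hπ0), map_add, map_mul, map_pow,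
          ← IsScalarTower.algebraMap_apply, ← IsScalarTower.algebraMap_apply]
        ring
      rw [e, map_mul, hpow]
      have h2 : P.valuation L (z - algebraMap (𝓞 L) L (algebraMap (𝓞 K) (𝓞 L) y₀)) ≤
          WithZero.exp (-1 : ℤ) := by
        apply le_one_of_lt
        have e2 : z - algebraMap (𝓞 L) L (algebraMap (𝓞 K) (𝓞 L) y₀) =
            -(algebraMap (𝓞 L) L z₀ - z) +
              algebraMap (𝓞 L) L (z₀ - algebraMap (𝓞 K) (𝓞 L) y₀) := by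
          rw [map_sub]; ring
        rw [e2]
        refine lt_of_le_of_lt (Valuation.map_add _ _ _) (max_lt ?_ ?_)
        · rw [Valuation.map_neg]
          exact hz₀
        · exact (HeightOneSpectrum.valuation_lt_one_iff_mem P _).2 hy₀
      calc WithZero.exp (-(n : ℤ)) * P.valuation L (z - algebraMap (𝓞 L) L
            (algebraMap (𝓞 K) (𝓞 L) y₀)) ≤ WithZero.exp (-(n : ℤ)) * WithZero.exp (-1 : ℤ) :=
            mul_le_mul_right h2 _
        _ = WithZero.exp (-((n + 1 : ℕ) : ℤ)) := by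
            rw [← WithZero.exp_add]
            congr 1
            push_cast
            ring
  intro x n
  obtain ⟨k, hk⟩ : ∃ k : ℕ, P.valuation L (x * algebraMap K L π ^ k) ≤ 1 := by
    by_cases h0 : x = 0
    · exact ⟨0, by simp [h0]⟩
    · obtain ⟨a, ha⟩ : ∃ a : ℤ, P.valuation L x = WithZero.exp a :=
        ⟨WithZero.log _, (WithZero.exp_log ((Valuation.ne_zero_iff _).2 h0)).symm⟩
      refine ⟨a.toNat, ?_⟩
      rw [map_mul, hpow, ha, ← WithZero.exp_add, ← WithZero.exp_zero, WithZero.exp_le_exp]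
      omega
  obtain ⟨y, hy⟩ := key _ hk (n + k)
  refine ⟨y / π ^ k, ?_⟩
  have e : x - algebraMap K L (y / π ^ k) =
      (x * algebraMap K L π ^ k - algebraMap K L y) / algebraMap K L π ^ k := by
    rw [map_div₀, map_pow]
    field_simp
  rw [e, map_div₀, hpow, div_le_iff₀ WithZero.exp_pos, ← WithZero.exp_add]
  refine hy.trans (le_of_eq ?_)
  congr 1
  push_cast
  ring

/-- All elements of the residue field are fixed by a power of the Frobenius map. -/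
theorem pow_sub_mem {K L : Type} [Field K] [NumberField K] [Field L] [NumberField L]
    [Algebra K L] {g : ℕ} {f : (𝓞 K)[X]} {θ : L} (hG : IsGen g f θ)
    {P : HeightOneSpectrum (𝓞 L)} (hsq : dsc g f ∉ (below K P).asIdeal ^ 2)
    {t : 𝓞 L} (ht : algebraMap (𝓞 L) L t = θ) {q e : ℕ} (hq : q.Prime)
    (hqP : (q : 𝓞 L) ∈ P.asIdeal)
    (hK : ∀ x : 𝓞 K, x ^ (q ^ e) - x ∈ (below K P).asIdeal)
    (hT : t ^ (q ^ e) - t ∈ P.asIdeal) (x : 𝓞 L) : x ^ (q ^ e) - x ∈ P.asIdeal := by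
  obtain ⟨s, p, hs, hsp, -⟩ := ev_at hG (below K P).isPrime (below K P).ne_bot hsq ht x
  have hmax : P.asIdeal.IsMaximal := P.isMaximal
  letI : Field (𝓞 L ⧸ P.asIdeal) := Ideal.Quotient.field P.asIdeal
  haveI i0 : Fact q.Prime := ⟨hq⟩
  have hκ0 : ((q : ℕ) : 𝓞 L ⧸ P.asIdeal) = 0 := by
    rw [← map_natCast (Ideal.Quotient.mk P.asIdeal)]
    exact Ideal.Quotient.eq_zero_iff_mem.2 hqP
  haveI i1 : CharP (𝓞 L ⧸ P.asIdeal) q := (CharP.charP_iff_prime_eq_zero hq).2 hκ0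
  haveI : ExpChar (𝓞 L ⧸ P.asIdeal) q := ExpChar.prime hq
  set φ : (𝓞 L ⧸ P.asIdeal) →+* (𝓞 L ⧸ P.asIdeal) := iterateFrobenius _ q e with hφ
  have hφa : ∀ a, φ a = a ^ (q ^ e) := fun a => iterateFrobenius_def q e a
  set ρ := Ideal.Quotient.mk P.asIdeal with hρ
  have h1 : ∀ z : 𝓞 L, z ^ (q ^ e) - z ∈ P.asIdeal ↔ φ (ρ z) = ρ z := by
    intro z
    rw [hφa, ← map_pow]
    exact Ideal.Quotient.eq.symm
  rw [h1]
  have hKφ : ∀ z : 𝓞 K, φ (ρ (algebraMap (𝓞 K) (𝓞 L) z)) = ρ (algebraMap (𝓞 K) (𝓞 L) z) := by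
    intro z
    rw [← h1, ← map_pow, ← map_sub]
    exact (mem_below P _).1 (hK z)
  have hTφ : φ (ρ t) = ρ t := (h1 t).1 hT
  have hev : φ (ρ (ev t p)) = ρ (ev t p) := by
    unfold ev
    rw [coe_eval₂RingHom, hom_eval₂, hom_eval₂, hTφ]
    congr 1
    exact RingHom.ext hKφ
  rw [hsp, map_mul, map_mul, hKφ s] at hev
  have hs0 : ρ (algebraMap (𝓞 K) (𝓞 L) s) ≠ 0 := by
    rw [Ne, Ideal.Quotient.eq_zero_iff_mem]
    exact hs
  exact mul_left_cancel₀ hs0 hev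

/-- Surjectivity of the map of residue fields. -/
theorem res_surj {K L : Type} [Field K] [NumberField K] [Field L] [NumberField L]
    [Algebra K L] {P : HeightOneSpectrum (𝓞 L)} {n : ℕ} (hn : 1 < n)
    (hc : Nat.card (𝓞 K ⧸ (below K P).asIdeal) = n)
    (hx : ∀ x : 𝓞 L, x ^ n - x ∈ P.asIdeal) (x : 𝓞 L) :
    ∃ y : 𝓞 K, x - algebraMap (𝓞 K) (𝓞 L) y ∈ P.asIdeal := by
  have hmax : P.asIdeal.IsMaximal := P.isMaximal
  letI : Field (𝓞 L ⧸ P.asIdeal) := Ideal.Quotient.field P.asIdeal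
  haveI hfin : Finite (𝓞 L ⧸ P.asIdeal) := Ideal.finiteQuotientOfFreeOfNeBot P.asIdeal P.ne_bot
  haveI : Fintype (𝓞 L ⧸ P.asIdeal) := Fintype.ofFinite _
  have hle : Nat.card (𝓞 L ⧸ P.asIdeal) ≤ n := by
    rw [Nat.card_eq_fintype_card]
    set r : (𝓞 L ⧸ P.asIdeal)[X] := X ^ n - X with hr
    have hr0 : r ≠ 0 := FiniteField.X_pow_card_sub_X_ne_zero _ hn
    have hrd : r.natDegree = n := FiniteField.X_pow_card_sub_X_natDegree_eq _ hn
    have hsub : (Finset.univ : Finset (𝓞 L ⧸ P.asIdeal)) ⊆ r.roots.toFinset := by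
      intro a _
      rw [Multiset.mem_toFinset, mem_roots hr0, IsRoot, hr, eval_sub, eval_pow, eval_X]
      obtain ⟨z, rfl⟩ := Ideal.Quotient.mk_surjective a
      rw [← map_pow, ← map_sub]
      exact Ideal.Quotient.eq_zero_iff_mem.2 (hx z)
    calc Fintype.card (𝓞 L ⧸ P.asIdeal) = (Finset.univ : Finset (𝓞 L ⧸ P.asIdeal)).card := rfl
      _ ≤ r.roots.toFinset.card := Finset.card_le_card hsub
      _ ≤ Multiset.card r.roots := Multiset.toFinset_card_le _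
      _ ≤ r.natDegree := card_roots' r
      _ = n := hrd
  have hle2 : (below K P).asIdeal ≤ P.asIdeal.comap (algebraMap (𝓞 K) (𝓞 L)) := fun a ha => ha
  let ι : (𝓞 K ⧸ (below K P).asIdeal) →+* (𝓞 L ⧸ P.asIdeal) :=
    Ideal.quotientMap P.asIdeal (algebraMap (𝓞 K) (𝓞 L)) hle2
  have hinj : Function.Injective ι := by
    apply Ideal.quotientMap_injective'
    exact fun a ha => ha
  have hbij := hinj.bijective_of_nat_card_le (by rw [hc]; exact hle)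
  obtain ⟨a, ha⟩ := hbij.2 (Ideal.Quotient.mk P.asIdeal x)
  obtain ⟨y, rfl⟩ := Ideal.Quotient.mk_surjective a
  refine ⟨y, ?_⟩
  have e : ι (Ideal.Quotient.mk _ y) = Ideal.Quotient.mk P.asIdeal (algebraMap (𝓞 K) (𝓞 L) y) :=
    Ideal.quotientMap_mk
  rw [e] at ha
  exact Ideal.Quotient.eq.1 ha.symm

end Pool.Agent.H459.TW2.DNS914

namespace Pool.Agent.H459.TW2

open Pool.Agent.H459.UF (below mem_below Dns Unr Cub fb fo below_below cub_sub fo_self Agr agr_top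
  val_pow exists_unif fb_self fb_eq)
open Pool.Agent.H459.UT (DatT csq dsc_q)
open Pool.Agent.N783.PF (IsGen rd fF GoodS Cg sp dsc Ov)
open DNS914

theorem dl_of_dr {F K : Type} [Field F] [NumberField F] [Field K] [NumberField K] [Algebra F K]
    {f : (𝓞 F)[X]} {J : Finset ℕ} {𝔮 : ℕ → Ideal (𝓞 F)} (H : DatT f J 𝔮) (hd3 : f.natDegree = 3)
    (hD : DR F K J 𝔮) : DL F K f J 𝔮 := by
  intro L _ _ _ _ _ θ h q hq P hP hθ
  obtain ⟨g, W, S, r, Pp, hg, hdeg, hS, hcg, hJS⟩ := H.dat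
  have hg1 : g = 1 := by omega
  subst hg1
  obtain ⟨θ₀, hθ₀, hc⟩ := cub_sub (K₁ := F) H.mon h
  have hgen : IsGen 1 f θ₀ := by
    have := hc.isGen H.mon hdeg
    rwa [fo_self] at this
  have hgenK : IsGen 1 (fo K f) θ := h.isGen H.mon hdeg
  set P₀ := below F⟮θ⟯ P with hP₀
  have hqS := hJS hq
  have hov : Ov (𝔮 q) P₀ := by
    intro a ha
    rw [← hP] at ha
    have h1 : algebraMap (𝓞 K) (𝓞 L) (algebraMap (𝓞 F) (𝓞 K) a) ∈ P.asIdeal := ha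
    show algebraMap (𝓞 F⟮θ⟯) (𝓞 L) (algebraMap (𝓞 F) (𝓞 F⟮θ⟯) a) ∈ P.asIdeal
    rw [← IsScalarTower.algebraMap_apply] at h1 ⊢
    exact h1
  obtain ⟨ei, hei, hvp⟩ := val_pow (K := F⟮θ⟯) P
  have hv0 : P₀.valuation F⟮θ⟯ θ₀ = 1 := by
    have h1 := hvp θ₀
    rw [hθ₀, hθ] at h1
    rcases pow_eq_one_iff.1 h1.symm with h2 | h2
    · exact h2
    · omega
  obtain ⟨c1, -, c3, -⟩ :=
    csq 1 W F F⟮θ⟯ f θ₀ S 𝔮 r Pp hg hgen hS q hqS (hcg q hqS) P₀ hov hv0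
  have hcard := card_res hg hgen hS hqS (hcg q hqS) P₀ hov hv0
  obtain ⟨e, he⟩ := card_q hS hqS
  obtain ⟨hqp, hq8, -, hqm⟩ := H.prime hq
  have hunr := (hD q hq (below K P) hP).1
  have hr2 := (hD q hq (below K P) hP).2
  -- the valuations agree
  have hagr : Agr F⟮θ⟯ P := by
    refine agr_top (K₁ := F) (K₂ := K) (L₁ := F⟮θ⟯) (θ₁ := θ₀) H.mon hc.top ?_ ?_ hunr ?_
    · have := hc.root
      rwa [fb_self] at this
    · rw [hθ₀]
      exact h.top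
    · rw [hvp, c3, one_pow]
  obtain ⟨π, hπ⟩ := exists_unif P₀
  -- the discriminant
  have hdK : dsc 1 (fo K f) ∉ (below K P).asIdeal ^ 2 := by
    intro hmem
    have h1 := Ideal.pow_le_self two_ne_zero hmem
    have e1 : dsc 1 (fo K f) = algebraMap (𝓞 F) (𝓞 K) (dsc 1 f) := by
      unfold dsc fo
      rw [derivative_map, resultant_map_map]
    rw [e1] at h1
    have h2 : dsc 1 f ∈ (below F (below K P)).asIdeal := (mem_below _ _).2 h1
    rw [hP] at h2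
    exact (dsc_q hg H.mon hdeg hS hqS (hcg q hqS)).1 h2
  -- the residue fields
  have hN : Nat.card (𝓞 F ⧸ 𝔮 q) ^ 2 = q ^ (e * 2) := by
    rw [he, pow_mul]
  have hqP : (q : 𝓞 L) ∈ P.asIdeal := by
    have h1 : (q : 𝓞 F) ∈ (below F (below K P)).asIdeal := by
      rw [hP]; exact hqm
    have h2 := (mem_below _ _).1 ((mem_below _ _).1 h1)
    rwa [map_natCast, map_natCast] at h2
  obtain ⟨t₀, ht₀⟩ : ∃ t₀ : 𝓞 F⟮θ⟯, algebraMap (𝓞 F⟮θ⟯) F⟮θ⟯ t₀ = θ₀ :=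
    ⟨⟨θ₀, hc.int H.mon⟩, rfl⟩
  set t : 𝓞 L := algebraMap (𝓞 F⟮θ⟯) (𝓞 L) t₀ with htd
  have ht : algebraMap (𝓞 L) L t = θ := by
    rw [← hθ₀, ← ht₀]
    rfl
  have hcard2 : Nat.card (𝓞 F⟮θ⟯ ⧸ P₀.asIdeal) = q ^ (e * 2) := by
    rw [hcard, mul_one, hN]
  have hT0 : t₀ ^ (q ^ (e * 2)) - t₀ ∈ P₀.asIdeal := by
    have hmax : P₀.asIdeal.IsMaximal := P₀.isMaximal
    letI : Field (𝓞 F⟮θ⟯ ⧸ P₀.asIdeal) := Ideal.Quotient.field P₀.asIdeal
    haveI hfin : Finite (𝓞 F⟮θ⟯ ⧸ P₀.asIdeal) :=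
      Ideal.finiteQuotientOfFreeOfNeBot P₀.asIdeal P₀.ne_bot
    haveI : Fintype (𝓞 F⟮θ⟯ ⧸ P₀.asIdeal) := Fintype.ofFinite _
    have h1 := FiniteField.pow_card (Ideal.Quotient.mk P₀.asIdeal t₀)
    rw [← Nat.card_eq_fintype_card, hcard2, ← map_pow] at h1
    exact Ideal.Quotient.eq.1 h1
  have hT : t ^ (q ^ (e * 2)) - t ∈ P.asIdeal := by
    rw [htd, ← map_pow, ← map_sub]
    exact (mem_below P _).1 hT0
  have hK : ∀ x : 𝓞 K, x ^ (q ^ (e * 2)) - x ∈ (below K P).asIdeal := by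
    intro x
    have h1 := hr2 x
    rw [hP, hN] at h1
    exact h1
  have hall := pow_sub_mem hgenK hdK ht hqp hqP hK hT
  have hn1 : 1 < q ^ (e * 2) := by
    rw [← hcard2]
    have hmax : P₀.asIdeal.IsMaximal := P₀.isMaximal
    letI : Field (𝓞 F⟮θ⟯ ⧸ P₀.asIdeal) := Ideal.Quotient.field P₀.asIdeal
    haveI hfin : Finite (𝓞 F⟮θ⟯ ⧸ P₀.asIdeal) :=
      Ideal.finiteQuotientOfFreeOfNeBot P₀.asIdeal P₀.ne_bot
    exact Finite.one_lt_card
  refine dns_of_unif (π := π) ?_ (res_surj hn1 hcard2 hall)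
  rw [hagr]
  exact hπ

end Pool.Agent.H459.TW2
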