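import Mathlib

set_option autoImplicit false
set_option linter.unusedVariables false

namespace Pool.Agent.H114.TW2

/-- elements which differ little differ by a square factor -/
theorem sim {k Γ : Type} [Field k] [LinearOrderedCommGroupWithZero Γ] (v : Valuation k Γ)
    (hsq : ∀ a : k, v a < 1 → IsSquare (1 + a)) {a b : k} (h : v (a - b) < v b) :
    ∃ s : k, s ≠ 0 ∧ a = b * (s * s) := by
  have hvb : 0 < v b := lt_of_le_of_lt zero_le h
  have hb : b ≠ 0 := by
    rintro rfl
    rw [map_zero] at hvb
    exact lt_irrefl _ hvb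
  have h1 : v ((a - b) / b) < 1 := by
    rw [map_div₀]
    exact (div_lt_one₀ hvb).2 h
  obtain ⟨s, hs⟩ := hsq _ h1
  have h2 : a = b * (s * s) := by
    rw [← hs]
    field_simp
    ring
  refine ⟨s, ?_, h2⟩
  rintro rfl
  rw [mul_zero, mul_zero] at h2
  rw [h2, zero_sub, Valuation.map_neg] at h
  exact lt_irrefl _ h

theorem locq {k Γ : Type} [Field k] [LinearOrderedCommGroupWithZero Γ] (v : Valuation k Γ)
    (h2 : v 2 = 1) (hsq : ∀ a : k, v a < 1 → IsSquare (1 + a)) (hm1 : IsSquare (-1 : k))
    (hs2 : IsSquare (2 : k)) {D : k} (hD : v D < 1) (hD0 : D ≠ 0) (hDodd : ∀ y : k, v D ≠ v y ^ 2)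
    {e₀ e e' : k} (he₀ : v e₀ < 1) (he : v e = 1) (he' : v (e + e') < 1) {x y : k}
    (hxy : y ^ 2 = (x - D * e₀) * (x - D * e) * (x - D * e')) (hne : x ≠ D * e) :
    IsSquare (x - D * e) ∨ IsSquare ((x - D * e) * (D * e)) := by
  have hDv : 0 < v D := zero_lt_iff.2 ((Valuation.ne_zero_iff v).2 hD0)
  have hve' : v e' = 1 := by
    have h1 : e' = (e + e') - e := by ring
    rw [h1, Valuation.map_sub_eq_of_lt_right v (by rw [he]; exact he'), he]
  have he0 : e ≠ 0 := by
    rintro rfl
    rw [map_zero] at he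
    exact zero_ne_one he
  have h20 : (2 : k) ≠ 0 := by
    intro h
    rw [h, map_zero] at h2
    exact zero_ne_one h2
  obtain ⟨i, hi⟩ := hm1
  obtain ⟨w, hw⟩ := hs2
  have hw0 : w ≠ 0 := by
    rintro rfl
    rw [mul_zero] at hw
    exact h20 hw
  rcases lt_or_ge (v D) (v x) with hx | hx
  · -- `v D < v x`
    left
    have hxv : 0 < v x := hDv.trans hx
    have hx0 : x ≠ 0 := by
      rintro rfl
      rw [map_zero] at hxv
      exact lt_irrefl _ hxv
    have key : ∀ r : k, v r ≤ 1 → ∃ s : k, s ≠ 0 ∧ x - D * r = x * (s * s) := by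
      intro r hr
      refine sim v hsq ?_
      have h1 : x - D * r - x = -(D * r) := by ring
      rw [h1, Valuation.map_neg, map_mul]
      refine lt_of_le_of_lt ?_ hx
      calc v D * v r ≤ v D * 1 := mul_le_mul_right hr _
        _ = v D := mul_one _
    obtain ⟨s₁, hs₁, h₁⟩ := key e₀ he₀.le
    obtain ⟨s₂, hs₂, h₂⟩ := key e he.le
    obtain ⟨s₃, hs₃, h₃⟩ := key e' hve'.le
    rw [h₁, h₂, h₃] at hxy
    rw [h₂]
    refine ⟨y / (x * s₁ * s₃), ?_⟩
    field_simp
    linear_combination (-1 : k) * hxy
  · -- `v x ≤ v D`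
    obtain ⟨z, hz⟩ : ∃ z, z = x / D := ⟨_, rfl⟩
    have hxz : x = D * z := by rw [hz]; field_simp
    have hvz : v z ≤ 1 := by
      rw [hz, map_div₀]
      exact (div_le_one₀ hDv).2 hx
    have hle : ∀ r : k, v r ≤ 1 → v (z - r) ≤ 1 := fun r hr =>
      (Valuation.map_sub v z r).trans (max_le hvz hr)
    have hze : z - e ≠ 0 := by
      intro h
      apply hne
      rw [hxz, sub_eq_zero.1 h]
    rcases lt_or_eq_of_le (hle e₀ he₀.le) with h₀ | h₀
    · right
      have h3 : v (z - e - -e) < v (-e) := by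
        rw [Valuation.map_neg, he]
        have : z - e - -e = (z - e₀) + e₀ := by ring
        rw [this]
        exact lt_of_le_of_lt (Valuation.map_add v _ _) (max_lt h₀ he₀)
      obtain ⟨s, hs, h4⟩ := sim v hsq h3
      refine ⟨D * e * i * s, ?_⟩
      have h5 : (x - D * e) * (D * e) = D * D * ((z - e) * e) := by rw [hxz]; ring
      rw [h5, h4]
      linear_combination (D * D * e * e * s * s) * hi
    rcases lt_or_eq_of_le (hle e' hve'.le) with h₁ | h₁
    · right
      have h3 : v (z - e - (-(2 * e))) < v (-(2 * e)) := by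
        rw [Valuation.map_neg, map_mul, h2, he, one_mul]
        have : z - e - -(2 * e) = (z - e') + (e + e') := by ring
        rw [this]
        exact lt_of_le_of_lt (Valuation.map_add v _ _) (max_lt h₁ he')
      obtain ⟨s, hs, h4⟩ := sim v hsq h3
      refine ⟨D * e * i * w * s, ?_⟩
      have h5 : (x - D * e) * (D * e) = D * D * ((z - e) * e) := by rw [hxz]; ring
      rw [h5, h4]
      have h6 : (-1 : k) * 2 = (i * i) * (w * w) := by rw [← hi, ← hw]
      linear_combination (D * D * e * e * s * s) * h6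
    rcases lt_or_eq_of_le (hle e he.le) with h | h
    · left
      have h3 : v (z - e₀ - e) < v e := by
        rw [he]
        have : z - e₀ - e = (z - e) - e₀ := by ring
        rw [this]
        exact lt_of_le_of_lt (Valuation.map_sub v _ _) (max_lt h he₀)
      have h4 : v (z - e' - 2 * e) < v (2 * e) := by
        rw [map_mul, h2, he, one_mul]
        have : z - e' - 2 * e = (z - e) - (e + e') := by ring
        rw [this]
        exact lt_of_le_of_lt (Valuation.map_sub v _ _) (max_lt h he')
      obtain ⟨s, hs, h5⟩ := sim v hsq h3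
      obtain ⟨t, ht, h6⟩ := sim v hsq h4
      have h7 : y ^ 2 = (x - D * e) * (D * e * w * s * t) ^ 2 := by
        rw [hxy]
        have h8 : x - D * e₀ = D * (e * (s * s)) := by rw [← h5, hxz]; ring
        have h9 : x - D * e' = D * (2 * e * (t * t)) := by rw [← h6, hxz]; ring
        rw [h8, h9]
        linear_combination ((x - D * e) * (D * e * s * t) ^ 2) * hw
      have h10 : D * e * w * s * t ≠ 0 := by
        refine mul_ne_zero (mul_ne_zero (mul_ne_zero (mul_ne_zero hD0 he0) hw0) hs) ht
      refine ⟨y / (D * e * w * s * t), ?_⟩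
      field_simp
      linear_combination (-1 : k) * h7
    · exfalso
      apply hDodd (y / D)
      have h3 : v y ^ 2 = v D ^ 3 := by
        rw [← map_pow, hxy, hxz]
        have : (D * z - D * e₀) * (D * z - D * e) * (D * z - D * e') =
            D ^ 3 * ((z - e₀) * (z - e) * (z - e')) := by ring
        rw [this, map_mul, map_mul, map_mul, h₀, h₁, h, map_pow]
        simp
      rw [map_div₀, div_pow, h3, pow_succ' (v D) 2]
      rw [mul_div_assoc, div_self (pow_ne_zero 2 hDv.ne'), mul_one]

end Pool.Agent.H114.TW2
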