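import Pool.Agent.H459.TW2.Cnd

/-!
# From `K₁` to a quadratic extension `K₂` inside `M`, residue degree at most two (helper459)

After `UT/Quad.lean`.
-/

set_option autoImplicit false
set_option linter.all false

open Polynomial IsDedekindDomain NumberField WithZero
open scoped Classical IntermediateField

namespace Pool.Agent.H459.TW2

open Pool.Agent.H459.UF (below mem_below below_below exists_above val_pow Agr agr_of_dns Dns dns_up
  dns_down dns_base agr_top Unr Cub fo fb fb_eq fb_map fb_self exists_poly cub_sub DQ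
  coprime_of_ne norm_mk below_self fo_self real_one One ext_real irr_quad unr_down unr_up
  dns_of_surj exp_lt)
open Pool.Agent.H459.UT
open Pool.Agent.N874.PP (Ev Sq1 U0)
open Pool.Agent.N783.PQ (LocIm)
open Pool.Agent.N783.PF (IsGen rd fF GoodS Cg sp)
open Pool.Agent.N874.PM (ev_down sq_down ev_sq ev_mul)
open Pool.Agent.N874.QM (locIm_congr locIm_sq locIm_map)

/-- `DR` implies `DL`. -/
def SDL (F : Type) [Field F] [NumberField F] (f : (𝓞 F)[X]) (J : Finset ℕ)
    (𝔮 : ℕ → Ideal (𝓞 F)) : Prop :=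
  ∀ (K : Type) [Field K] [NumberField K] [Algebra F K], DR F K J 𝔮 → DL F K f J 𝔮

theorem dns_adj {F K L : Type} [Field F] [NumberField F] [Field K] [NumberField K] [Field L]
    [NumberField L] [Algebra F K] [Algebra K L] [Algebra F L] [IsScalarTower F K L] {θ : L}
    {P : HeightOneSpectrum (𝓞 L)} (h : Dns F⟮θ⟯ P) : Dns K⟮θ⟯ P := by
  intro x n
  obtain ⟨y, hy⟩ := h x n
  have hle : F⟮θ⟯ ≤ (K⟮θ⟯).restrictScalars F := by
    rw [IntermediateField.adjoin_simple_le_iff]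
    exact IntermediateField.mem_adjoin_simple_self K θ
  exact ⟨⟨y, hle y.2⟩, hy⟩

theorem dr_down {F K M : Type} [Field F] [NumberField F] [Field K] [NumberField K] [Field M]
    [NumberField M] [Algebra F K] [Algebra K M] [Algebra F M] [IsScalarTower F K M] {J : Finset ℕ}
    {𝔮 : ℕ → Ideal (𝓞 F)} (h : DR F M J 𝔮) : DR F K J 𝔮 := by
  intro q hq w hw
  obtain ⟨w', rfl⟩ := exists_above (K := K) M w
  have e : below F (below K w') = below F w' := below_below w'
  obtain ⟨h1, h2⟩ := h q hq w' (by rw [← hw, below_below])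
  rw [e]
  refine ⟨unr_down h1, fun x => ?_⟩
  rw [mem_below, e, map_sub, map_pow]
  exact h2 _

theorem quadL {F : Type} {K₁ K₂ M : Type} [Field F] [NumberField F] [Field K₁] [NumberField K₁]
    [Field K₂] [NumberField K₂] [Field M] [NumberField M] [Algebra F K₁] [Algebra F K₂]
    [Algebra K₁ K₂] [IsScalarTower F K₁ K₂] [Algebra K₁ M] [Algebra K₂ M] [Algebra F M]
    [IsScalarTower K₁ K₂ M] [IsScalarTower F K₁ M] [IsScalarTower F K₂ M] [IsGalois K₁ M]
    {Bw : HeightOneSpectrum (𝓞 F) → Prop} {T : M[X] → Prop}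
    {f : (𝓞 F)[X]} {J : Finset ℕ} {𝔮 : ℕ → Ideal (𝓞 F)}
    (H : DatT f J 𝔮) (hT : TOK F M f T) (h2 : Module.finrank K₁ K₂ = 2) (hS : StpT K₁ K₂ Bw f)
    (hD : DL F K₂ f J 𝔮) (hK : PKT F K₁ M Bw T f J 𝔮) : PKT F K₂ M Bw T f J 𝔮 := by
  intro L₂ _ _ _ θ₂ hroot htop hrank
  have hc₂ : Cub K₂ f θ₂ := ⟨hroot, htop, hrank⟩
  haveI : IsGalois K₁ K₂ := by
    haveI : FiniteDimensional K₁ K₂ := inferInstance
    haveI : Algebra.IsQuadraticExtension K₁ K₂ := ⟨h2⟩
    infer_instance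
  letI : Algebra K₁ L₂ := ((algebraMap K₂ L₂).comp (algebraMap K₁ K₂)).toAlgebra
  haveI : IsScalarTower K₁ K₂ L₂ := IsScalarTower.of_algebraMap_eq fun _ => rfl
  obtain ⟨θ₁, hθ₁, hc₁⟩ := cub_sub (K₁ := K₁) H.mon hc₂
  have hodd := H.odd
  obtain ⟨g, W, S, r, Pp, hg, hdeg, hrest⟩ := H.dat
  have hmin₂ := hc₂.minp H.mon
  have htop' : K₂⟮algebraMap K₁⟮θ₂⟯ L₂ θ₁⟯ = ⊤ := by
    rw [hθ₁]
    exact htop
  intro h hne hN hcnd
  refine Pool.Agent.N301.JM.qs K₁ K₁⟮θ₂⟯ K₂ L₂ two_ne_zero h2 (by rw [hc₁.rank]; exact hodd)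
    (by rw [hrank, hc₁.rank]) (fun x => ∃ p : K₂[X], aeval θ₂ p = x ∧ CndT F M Bw T f J 𝔮 θ₂ p)
    ?_ ?_ ?_ ?_ _ hne ⟨h, rfl, hcnd⟩ hN
  · intro x hx
    obtain ⟨p, rfl⟩ := exists_poly htop x
    exact ⟨p ^ 2, map_pow _ _ _, cnd_sqT hT hx⟩
  · rintro x y hx hy ⟨p, rfl, hp⟩ ⟨p', rfl, hp'⟩
    exact ⟨p * p', map_mul _ _ _, cnd_mulL H hT hc₂ hD hx hy hp hp'⟩
  · rintro σ x ⟨p, rfl, hp⟩
    have h1 := cnd_sigT (K₁ := K₁) (M := M) hT (θ₁ := θ₁) (J := J) (𝔮 := 𝔮) (f := f) σ (p := p) (by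
      rw [hθ₁]
      exact hp)
    rw [hθ₁] at h1
    exact h1
  · rintro x hx ⟨p₂, hp₂, hC⟩ hNx
    obtain ⟨p, rfl⟩ := exists_poly hc₁.top x
    have hC' : CndT F M Bw T f J 𝔮 θ₂ (p.map (algebraMap K₁ K₂)) := by
      refine cnd_congrT hT hroot hmin₂ ?_ hC
      rw [hp₂, aeval_map_algebraMap, ← aeval_algebraMap_apply, hθ₁]
    have hval : aeval θ₂ (p.map (algebraMap K₁ K₂)) = algebraMap K₁⟮θ₂⟯ L₂ (aeval θ₁ p) := by
      rw [aeval_map_algebraMap, ← aeval_algebraMap_apply, hθ₁]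
    have hbb : ∀ P : HeightOneSpectrum (𝓞 L₂),
        below K₁ (below K₁⟮θ₂⟯ P) = below K₁ (below K₂ P) := by
      intro P
      ext1
      ext a
      show algebraMap (𝓞 K₁⟮θ₂⟯) (𝓞 L₂) (algebraMap (𝓞 K₁) (𝓞 K₁⟮θ₂⟯) a) ∈ P.asIdeal ↔
        algebraMap (𝓞 K₂) (𝓞 L₂) (algebraMap (𝓞 K₁) (𝓞 K₂) a) ∈ P.asIdeal
      rw [← IsScalarTower.algebraMap_apply, ← IsScalarTower.algebraMap_apply]
    have hcop := coprime_of_ne H.mon hc₁ hx
    have hNp : IsSquare (Algebra.norm K₁ (AdjoinRoot.mk (fb K₁ f) p)) := by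
      rw [norm_mk H.mon hc₁]
      exact hNx
    have hη : aeval θ₂ (derivative (fb K₂ f)) =
        algebraMap K₁⟮θ₂⟯ L₂ (aeval θ₁ (derivative (fb K₁ f))) := by
      rw [← fb_map K₁ K₂ f, derivative_map, aeval_map_algebraMap, ← aeval_algebraMap_apply, hθ₁]
    refine hK K₁⟮θ₂⟯ θ₁ hc₁.root hc₁.top hc₁.rank p hx hNx ⟨?_, ?_, ?_, ?_⟩
    · intro P h1 h3 h4
      rcases hS.unr (below K₁ P) h1 with hu | hirr
      · obtain ⟨P₂, rfl⟩ := exists_above (K := K₁⟮θ₂⟯) L₂ P
        obtain ⟨e, he, hv⟩ := val_pow (K := K₁⟮θ₂⟯) P₂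
        have hη2 : P₂.valuation L₂ (algebraMap K₁⟮θ₂⟯ L₂ (aeval θ₁ (derivative (fb K₁ f)))) = 1 := by
          rw [hv, h4, one_pow]
        have hagr : Agr K₁⟮θ₂⟯ P₂ := by
          refine agr_top (K₁ := K₁) (K₂ := K₂) (f := fo K₁ f) (H.mon.map _) hc₁.top ?_ htop' ?_ ?_
          · rw [← fb_eq]
            exact hc₁.root
          · rw [← hbb]
            exact hu
          · rw [← fb_eq]
            exact hη2
        refine (ev_down hagr _).1 ?_
        rw [← hval]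
        have hnat : ∀ n : ℕ, (n : 𝓞 L₂) ∈ P₂.asIdeal → (n : 𝓞 K₁⟮θ₂⟯) ∈ (below K₁⟮θ₂⟯ P₂).asIdeal := by
          intro n hn
          rw [mem_below, map_natCast]
          exact hn
        refine hC'.ev P₂ ?_ (fun q hq hm => h3 q hq (hnat q hm)) ?_
        · rw [hbb, below_below] at h1
          exact h1
        · rw [hη]
          exact hη2
      · exact pin (hc₁.isGen H.mon hdeg) (below K₁ P).isPrime (below K₁ P).ne_bot hirr hx hNx
          (fun a ha => (mem_below P a).1 ha)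
    · intro q hq P h1 h3
      obtain ⟨P₂, rfl⟩ := exists_above (K := K₁⟮θ₂⟯) L₂ P
      have hb2 : (below F (below K₂ P₂)).asIdeal = 𝔮 q := by
        have h1' : (below F (below K₁ (below K₁⟮θ₂⟯ P₂))).asIdeal = 𝔮 q := h1
        rw [hbb, below_below] at h1'
        exact h1'
      have hv1 : P₂.valuation L₂ θ₂ = 1 := by
        obtain ⟨e, he, hv⟩ := val_pow (K := K₁⟮θ₂⟯) P₂
        rw [← hθ₁, hv, h3, one_pow]
      have hdL : Dns K₁⟮θ₂⟯ P₂ := by
        letI : Algebra F L₂ := ((algebraMap K₂ L₂).comp (algebraMap F K₂)).toAlgebra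
        haveI : IsScalarTower F K₂ L₂ := IsScalarTower.of_algebraMap_eq fun _ => rfl
        haveI : IsScalarTower F K₁ L₂ := IsScalarTower.of_algebraMap_eq fun x => by
          rw [IsScalarTower.algebraMap_apply F K₂ L₂, IsScalarTower.algebraMap_apply F K₁ K₂]
          rfl
        exact dns_adj (hD L₂ θ₂ hc₂ q hq P₂ hb2 hv1)
      have hagr := agr_of_dns hdL
      have hd : ∀ s : L₂, s ≠ 0 → ∃ s₀ : K₁⟮θ₂⟯,
          P₂.valuation L₂ (s - algebraMap K₁⟮θ₂⟯ L₂ s₀) < P₂.valuation L₂ s := by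
        intro s hs
        obtain ⟨a, ha⟩ : ∃ a : ℤ, P₂.valuation L₂ s = WithZero.exp a :=
          ⟨WithZero.log _, (WithZero.exp_log ((Valuation.ne_zero_iff _).2 hs)).symm⟩
        obtain ⟨s₀, hs₀⟩ := hdL s ((-a + 1).toNat)
        refine ⟨s₀, lt_of_le_of_lt hs₀ ?_⟩
        rw [ha]
        refine exp_lt ?_
        omega
      have hu := hC'.u0 q hq P₂ hb2 (by
        rw [← hθ₁, hagr]
        exact h3)
      rw [hval] at hu
      refine ⟨fun h4 => sq_down hagr hd (hu.1 ((ev_down hagr _).2 h4)), fun h4 => ?_⟩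
      have h5 := hu.2 fun h6 => h4 ((ev_down hagr _).1 h6)
      have e : algebraMap K₁⟮θ₂⟯ L₂ (aeval θ₁ p) * ((q : L₂) * θ₂) =
          algebraMap K₁⟮θ₂⟯ L₂ (aeval θ₁ p * ((q : K₁⟮θ₂⟯) * θ₁)) := by
        rw [map_mul, map_mul, map_natCast, hθ₁]
      rw [e] at h5
      exact sq_down hagr hd h5
    · have h5 := hC'.two
      rwa [Polynomial.map_map, ← IsScalarTower.algebraMap_eq] at h5
    · intro σ
      exact hS.real σ p (hc₁.irr H.mon) hcop hNp fun ρ hρ => hC'.real ρ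

/-- The conditions on a Galois extension `M` of `K`. -/
structure TCL (F K M : Type) [Field F] [NumberField F] [Field K] [NumberField K] [Field M]
    [NumberField M] [Algebra F K] [Algebra K M] [Algebra F M]
    (Bw : HeightOneSpectrum (𝓞 F) → Prop) (f : (𝓞 F)[X]) (J : Finset ℕ)
    (𝔮 : ℕ → Ideal (𝓞 F)) : Prop where
  unr : ∀ v : HeightOneSpectrum (𝓞 K), ¬ Bw (below F v) →
    Unr K M v ∨ Irreducible (rd v.asIdeal (fo K f))
  q : DR F M J 𝔮
  real : ∀ σ : K →+* ℝ, (∃ ρ : M →+* ℝ, ρ.comp (algebraMap K M) = σ) ∨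
    One f (σ.comp (algebraMap F K))

/-- The tower. -/
theorem towerL {F M : Type} [Field F] [NumberField F] [Field M] [NumberField M] [Algebra F M]
    {Bw : HeightOneSpectrum (𝓞 F) → Prop} {T : M[X] → Prop} {f : (𝓞 F)[X]} {J : Finset ℕ}
    {𝔮 : ℕ → Ideal (𝓞 F)} (H : DatT f J 𝔮) (hDL : SDL F f J 𝔮) (hTO : TOK F M f T) (hd : f.natDegree = 3) :
    ∀ (n : ℕ) (K : Type)
    [Field K] [NumberField K] [Algebra F K] [Algebra K M]
    [IsScalarTower F K M] [IsGalois K M], Module.finrank K M = 2 ^ n → TCL F K M Bw f J 𝔮 →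
    PKT F K M Bw T f J 𝔮 → PKT F M M Bw T f J 𝔮 := by
  intro n
  induction n with
  | zero =>
    intro K _ _ _ _ _ _ hn hT hK
    refine pk_isoT (K := K) ?_ hK
    intro z
    have h6 : z ∈ (⊥ : Subalgebra K M) := by
      rw [Subalgebra.bot_eq_top_of_finrank_eq_one (by rw [hn, pow_zero])]
      exact Algebra.mem_top
    exact Algebra.mem_bot.1 h6
  | succ n ih =>
    intro K _ _ _ _ _ _ hn hT hK
    have hcard : Nat.card (M ≃ₐ[K] M) = 2 ^ (n + 1) := by
      rw [IsGalois.card_aut_eq_finrank, hn]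
    obtain ⟨G, hG⟩ := Sylow.exists_subgroup_card_pow_prime (G := M ≃ₐ[K] M) 2 (n := n)
      (by rw [hcard]; exact pow_dvd_pow 2 (Nat.le_succ n))
    set K₁ := IntermediateField.fixedField G with hK₁
    have d1 : Module.finrank K₁ M = 2 ^ n := by
      rw [IntermediateField.finrank_fixedField_eq_card, hG]
    clear_value K₁
    have d2 : Module.finrank K K₁ = 2 := by
      have h4 := Module.finrank_mul_finrank K K₁ M
      rw [hn, d1, pow_succ, mul_comm] at h4
      exact Nat.eq_of_mul_eq_mul_left (by positivity) h4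
    haveI : IsScalarTower F K K₁ := inferInstance
    haveI : IsScalarTower F K₁ M := IsScalarTower.of_algebraMap_eq fun x => by
      rw [IsScalarTower.algebraMap_apply F K K₁, ← IsScalarTower.algebraMap_apply K K₁ M,
        ← IsScalarTower.algebraMap_apply F K M]
    have hfbdeg : (fb K f).natDegree = 3 := by
      unfold fb fF
      rw [((H.mon.map _).natDegree_map), H.mon.natDegree_map, hd]
    have hone : ∀ σ : K →+* ℝ, (fb K f).map σ = (fF f).map (σ.comp (algebraMap F K)) := by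
      intro σ
      unfold fb
      rw [Polynomial.map_map]
    have hDQ : DL F K₁ f J 𝔮 := hDL K₁ (dr_down (K := K₁) (M := M) hT.q)
    have hS : StpT K K₁ Bw f := by
      refine ⟨?_, ?_⟩
      · intro v hv
        rcases hT.unr v hv with h | h
        · exact Or.inl (unr_down h)
        · exact Or.inr h
      · intro σ p hirr hc hN hp
        rcases hT.real σ with ⟨ρ, hρ⟩ | ⟨e, z, h1, h2, h3⟩
        · have h4 := hp (ρ.comp (algebraMap K₁ M)) (by
            rw [RingHom.comp_assoc, ← IsScalarTower.algebraMap_eq, hρ])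
          have e1 : ∀ r : K[X], (r.map (algebraMap K K₁)).map (ρ.comp (algebraMap K₁ M)) =
              r.map σ := by
            intro r
            rw [Polynomial.map_map, RingHom.comp_assoc, ← IsScalarTower.algebraMap_eq, hρ]
          rw [← fb_map K K₁ f, e1, e1] at h4
          exact h4
        · rw [← hone] at h2 h3
          exact real_one ((H.mon.map _).map _) hirr hfbdeg σ h1 h2 h3 hc hN
    have hK1 := quadL (M := M) H hTO d2 hS hDQ hK
    refine ih K₁ d1 ⟨?_, hT.q, ?_⟩ hK1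
    · intro w hw
      rcases hT.unr (below K w) (by rw [below_below]; exact hw) with h | h
      · exact Or.inl (unr_up h)
      · exact Or.inr (irr_quad H.mon hd d2.le w h)
    · intro σ
      rcases hT.real (σ.comp (algebraMap K K₁)) with ⟨ρ, hρ⟩ | h
      · exact Or.inl (ext_real ρ σ hρ)
      · refine Or.inr ?_
        rw [RingHom.comp_assoc, ← IsScalarTower.algebraMap_eq] at h
        exact h

end Pool.Agent.H459.TW2
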