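import Pool.Agent.H459.TW2.Def
import Pool.Graph.R_pool_sql_team_seeded_63374d34.N704.PJ.Hensel
import Pool.Graph.R_pool_sql_team_seeded_63374d34.N704.PP.Loc

/-!
# TW2-ROOT: the Hensel roots of a cubic and the comparison of the valuations (helper337)
-/

set_option autoImplicit false
set_option linter.all false

open Polynomial IsDedekindDomain NumberField WithZero
open scoped Classical IntermediateField

namespace Pool.Agent.H337.TW2

open Pool.Agent.H459.UF (below mem_below val_pow)
open Pool.Agent.N704.PJ (hensel lip)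
open Pool.Agent.N704.PP (vx near sq1_of)
open Pool.Agent.N874.PP (Sq1)

section val

variable {E Γ : Type*} [Field E] [LinearOrderedCommGroupWithZero Γ] (v : Valuation E Γ)

theorem lt_add {x y : E} (hx : v x < 1) (hy : v y < 1) : v (x + y) < 1 :=
  (v.map_add _ _).trans_lt (max_lt hx hy)

theorem le_add {x y : E} (hx : v x ≤ 1) (hy : v y ≤ 1) : v (x + y) ≤ 1 :=
  (v.map_add _ _).trans (max_le hx hy)

theorem lt_sub {x y : E} (hx : v x < 1) (hy : v y < 1) : v (x - y) < 1 :=
  (v.map_sub _ _).trans_lt (max_lt hx hy)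

theorem le_mul {x y : E} (hx : v x ≤ 1) (hy : v y ≤ 1) : v (x * y) ≤ 1 := by
  rw [map_mul]
  exact mul_le_one' hx hy

theorem lt_mul {x y : E} (hx : v x < 1) (hy : v y ≤ 1) : v (x * y) < 1 := by
  rw [map_mul]
  exact lt_of_le_of_lt (mul_le_mul' le_rfl hy) (by rw [mul_one]; exact hx)

theorem lt_mul' {x y : E} (hx : v x ≤ 1) (hy : v y < 1) : v (x * y) < 1 := by
  rw [mul_comm]
  exact lt_mul v hy hx

theorem eq_one {x y : E} (hx : v x = 1) (hy : v y < 1) : v (x + y) = 1 := by
  rw [Valuation.map_add_eq_of_lt_left, hx]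
  rw [hx]
  exact hy

theorem le_nat (n : ℕ) : v (n : E) ≤ 1 := by
  induction n with
  | zero => rw [Nat.cast_zero, map_zero]; exact zero_le
  | succ n ih =>
    rw [Nat.cast_succ]
    exact le_add v ih (by rw [map_one])

/-- the unit: the derivative -/
theorem unit_of {a x z A B : E} (ha : v a = 1) (h2 : v 2 = 1) (hA : v A < 1)
    (hB : v (B + a ^ 2) < 1) (hx : v (x - a) < 1) (hz : v (z - a) < 1) :
    v (x ^ 2 + x * z + z ^ 2 + A * (x + z) + B) = 1 := by
  have e : x ^ 2 + x * z + z ^ 2 + A * (x + z) + B = 2 * a ^ 2 +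
      ((B + a ^ 2) + (3 * a * ((x - a) + (z - a)) + ((x - a) * (x - a) + ((x - a) * (z - a) +
        ((z - a) * (z - a) + A * ((x - a) + (z - a) + 2 * a)))))) := by ring
  have h3 : v (3 : E) ≤ 1 := by
    have := le_nat v 3
    exact_mod_cast this
  rw [e]
  refine eq_one v ?_ ?_
  · rw [map_mul, map_pow, ha, h2, one_pow, mul_one]
  · refine lt_add v hB (lt_add v ?_ (lt_add v ?_ (lt_add v ?_ (lt_add v ?_ ?_))))
    · exact lt_mul' v (le_mul v h3 ha.le) (lt_add v hx hz)
    · exact lt_mul v hx hx.le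
    · exact lt_mul v hx hz.le
    · exact lt_mul v hz hz.le
    · exact lt_mul v hA (le_add v (lt_add v hx hz).le (le_mul v h2.le ha.le))

end val

section roots

variable {L : Type*} [Field L] [Valued L (WithZero (Multiplicative ℤ))]

/-- The monic cubic. -/
noncomputable def pc (A B D : L) : L[X] := X ^ 3 + C A * X ^ 2 + C B * X + C D

theorem cub_split [CompleteSpace L] [T0Space L] {A B D a : L}
    (h2 : Valued.v (Γ₀ := WithZero (Multiplicative ℤ)) (2 : L) = 1)
    (ha : Valued.v (Γ₀ := WithZero (Multiplicative ℤ)) a = 1)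
    (hA : Valued.v (Γ₀ := WithZero (Multiplicative ℤ)) A < 1)
    (hB : Valued.v (Γ₀ := WithZero (Multiplicative ℤ)) (B + a ^ 2) < 1)
    (hD : Valued.v (Γ₀ := WithZero (Multiplicative ℤ)) D < 1) :
    ∃ e₀ e e' : L, X ^ 3 + C A * X ^ 2 + C B * X + C D = (X - C e₀) * (X - C e) * (X - C e') ∧
      Valued.v (Γ₀ := WithZero (Multiplicative ℤ)) e₀ < 1 ∧
      Valued.v (Γ₀ := WithZero (Multiplicative ℤ)) (e - a) < 1 ∧
      Valued.v (Γ₀ := WithZero (Multiplicative ℤ)) (e' + a) < 1 := by
  set v : Valuation L (WithZero (Multiplicative ℤ)) := Valued.v with hv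
  set g : L[X] := X ^ 3 + C A * X ^ 2 + C B * X + C D with hg
  have hBv : v B = 1 := by
    have e : B = (-a ^ 2) + (B + a ^ 2) := by ring
    rw [e]
    exact eq_one v (by rw [Valuation.map_neg, map_pow, ha, one_pow]) hB
  have hge : ∀ x, g.eval x = x ^ 3 + A * x ^ 2 + B * x + D := by
    intro x
    simp [hg]
  have hgd : ∀ x, (derivative g).eval x = x ^ 2 + x * x + x ^ 2 + A * (x + x) + B := by
    intro x
    simp only [hg, derivative_add, derivative_X_pow, derivative_mul, derivative_C, derivative_X,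
      eval_add, eval_mul, eval_pow, eval_X, eval_C, eval_zero, eval_one]
    push_cast
    ring
  have hgc : ∀ i, v (g.coeff i) ≤ 1 := by
    intro i
    have e : g.coeff i = (if i = 3 then 1 else 0) + A * (if i = 2 then 1 else 0) +
        B * (if i = 1 then 1 else 0) + (if i = 0 then D else 0) := by
      simp only [hg, coeff_add, coeff_C_mul, coeff_X_pow, coeff_C, coeff_X, eq_comm (a := (1:ℕ))]
    rw [e]
    have hi : ∀ (q : Prop) [Decidable q], v (if q then (1 : L) else 0) ≤ 1 := by
      intro q _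
      by_cases h : q
      · rw [if_pos h, map_one]
      · rw [if_neg h, map_zero]; exact zero_le
    refine le_add v (le_add v (le_add v (hi _) (le_mul v hA.le (hi _)))
      (le_mul v hBv.le (hi _))) ?_
    by_cases h : i = 0
    · rw [if_pos h]; exact hD.le
    · rw [if_neg h, map_zero]; exact zero_le
  obtain ⟨e₀, h0, h0'⟩ := hensel g hgc (a := 0) (by rw [map_zero]; exact zero_le) (by
    rw [hge]
    simpa using hD) (by
    rw [hgd]
    simpa using hBv)
  obtain ⟨e₁, h1, h1'⟩ := hensel g hgc (a := a) ha.le (by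
    rw [hge]
    have e : a ^ 3 + A * a ^ 2 + B * a + D = (B + a ^ 2) * a + A * (a * a) + D := by ring
    rw [e]
    exact lt_add v (lt_add v (lt_mul v hB ha.le) (lt_mul v hA (le_mul v ha.le ha.le))) hD) (by
    rw [hgd]
    refine unit_of v ha h2 hA hB ?_ ?_ <;> rw [sub_self, map_zero] <;> exact zero_lt_one)
  have ha' : v (-a) = 1 := by rw [Valuation.map_neg, ha]
  have hB' : v (B + (-a) ^ 2) < 1 := by rw [neg_sq]; exact hB
  obtain ⟨e₂, h2', h2''⟩ := hensel g hgc (a := -a) ha'.le (by
    rw [hge]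
    have e : (-a) ^ 3 + A * (-a) ^ 2 + B * (-a) + D = (B + a ^ 2) * (-a) + A * (a * a) + D := by
      ring
    rw [e]
    exact lt_add v (lt_add v (lt_mul v hB ha'.le) (lt_mul v hA (le_mul v ha.le ha.le))) hD) (by
    rw [hgd]
    refine unit_of v ha' h2 hA hB' ?_ ?_ <;> rw [sub_self, map_zero] <;> exact zero_lt_one)
  rw [sub_zero] at h0'
  rw [sub_neg_eq_add] at h2''
  have v1 : v e₁ = 1 := by
    have e : e₁ = a + (e₁ - a) := by ring
    rw [e]
    exact eq_one v ha h1'
  have v2 : v e₂ = 1 := by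
    have e : e₂ = (-a) + (e₂ + a) := by ring
    rw [e]
    exact eq_one v ha' h2''
  have n01 : e₀ - e₁ ≠ 0 := by
    intro h
    rw [sub_eq_zero] at h
    rw [h] at h0'
    exact absurd v1 h0'.ne
  have n02 : e₀ - e₂ ≠ 0 := by
    intro h
    rw [sub_eq_zero] at h
    rw [h] at h0'
    exact absurd v2 h0'.ne
  have n12 : e₁ - e₂ ≠ 0 := by
    intro h
    have e : e₁ - e₂ = 2 * a + ((e₁ - a) - (e₂ + a)) := by ring
    have h3 : v (e₁ - e₂) = 1 := by
      rw [e]
      exact eq_one v (by rw [map_mul, h2, ha, mul_one]) (lt_sub v h1' h2'')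
    rw [h, map_zero] at h3
    exact zero_ne_one h3
  rw [hge] at h0 h1 h2'
  have k1 : e₀ ^ 2 + e₀ * e₁ + e₁ ^ 2 + A * (e₀ + e₁) + B = 0 := by
    have : (e₀ - e₁) * (e₀ ^ 2 + e₀ * e₁ + e₁ ^ 2 + A * (e₀ + e₁) + B) = 0 := by
      linear_combination h0 - h1
    exact (mul_eq_zero.1 this).resolve_left n01
  have k2 : e₀ ^ 2 + e₀ * e₂ + e₂ ^ 2 + A * (e₀ + e₂) + B = 0 := by
    have : (e₀ - e₂) * (e₀ ^ 2 + e₀ * e₂ + e₂ ^ 2 + A * (e₀ + e₂) + B) = 0 := by
      linear_combination h0 - h2'
    exact (mul_eq_zero.1 this).resolve_left n02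
  have k3 : e₀ + e₁ + e₂ + A = 0 := by
    have : (e₁ - e₂) * (e₀ + e₁ + e₂ + A) = 0 := by
      linear_combination k1 - k2
    exact (mul_eq_zero.1 this).resolve_left n12
  have kA : A = -(e₀ + e₁ + e₂) := by linear_combination k3
  have kB : B = e₀ * e₁ + e₀ * e₂ + e₁ * e₂ := by
    linear_combination k1 - (e₀ + e₁) * k3
  have kD : D = -(e₀ * e₁ * e₂) := by
    linear_combination h0 - e₀ ^ 2 * kA - e₀ * kB
  refine ⟨e₀, e₁, e₂, ?_, h0', h1', h2''⟩
  rw [hg, kA, kB, kD]
  simp only [map_neg, map_add, map_mul]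
  ring

end roots

section cmp

variable {M : Type} [Field M] [NumberField M]

theorem exists_int (w : HeightOneSpectrum (𝓞 M)) (p : M[X]) :
    ∃ c : M, c ≠ 0 ∧ ∀ j, w.valuation M (c * p.coeff j) ≤ 1 := by
  obtain ⟨b, hb⟩ := IsLocalization.exist_integer_multiples_of_finset (nonZeroDivisors (𝓞 M))
    (p.support.image p.coeff)
  refine ⟨algebraMap (𝓞 M) M b, ?_, fun j => ?_⟩
  · exact IsFractionRing.to_map_ne_zero_of_mem_nonZeroDivisors b.2
  · by_cases hj : p.coeff j = 0
    · rw [hj, mul_zero, map_zero]; exact zero_le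
    · obtain ⟨y, hy⟩ := hb (p.coeff j) (Finset.mem_image_of_mem _ (mem_support_iff.2 hj))
      have hy' : algebraMap (𝓞 M) M y = algebraMap (𝓞 M) M b * p.coeff j := by
        rw [hy]
        exact Algebra.smul_def _ _
      rw [← hy']
      exact w.valuation_le_one y

variable {L : Type} [Field L] [NumberField L] [Algebra M L]

/-- The comparison of the two valuations. -/
theorem cmp (P : HeightOneSpectrum (𝓞 L)) {A B D a : M} {θ : L}
    {e₀ e e' : (below M P).adicCompletion M}
    (h2 : (below M P).valuation M 2 = 1) (ha : (below M P).valuation M a = 1)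
    (hA : (below M P).valuation M A < 1) (hB : (below M P).valuation M (B + a ^ 2) < 1)
    (hθ : θ ^ 3 + algebraMap M L A * θ ^ 2 + algebraMap M L B * θ + algebraMap M L D = 0)
    (hθa : P.valuation L (θ - algebraMap M L a) < 1)
    (hsp : ∀ x : (below M P).adicCompletion M,
      x ^ 3 + algebraMap M ((below M P).adicCompletion M) A * x ^ 2 +
      algebraMap M ((below M P).adicCompletion M) B * x +
      algebraMap M ((below M P).adicCompletion M) D = (x - e₀) * (x - e) * (x - e'))
    (h0 : Valued.v (Γ₀ := WithZero (Multiplicative ℤ)) e₀ < 1)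
    (h1 : Valued.v (Γ₀ := WithZero (Multiplicative ℤ))
      (e - algebraMap M ((below M P).adicCompletion M) a) < 1)
    (h3 : Valued.v (Γ₀ := WithZero (Multiplicative ℤ))
      (e' + algebraMap M ((below M P).adicCompletion M) a) < 1) {x : M}
    (hx : Valued.v (Γ₀ := WithZero (Multiplicative ℤ))
      (e - algebraMap M ((below M P).adicCompletion M) x) < 1) :
    (below M P).valuation M x = 1 ∧
    P.valuation L (θ - algebraMap M L x) ≤ Valued.v (Γ₀ := WithZero (Multiplicative ℤ))
      (e - algebraMap M ((below M P).adicCompletion M) x) := by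
  obtain ⟨n, hn, hV⟩ := val_pow (K := M) P
  set v : Valuation ((below M P).adicCompletion M) (WithZero (Multiplicative ℤ)) := Valued.v with hv
  set ι := algebraMap M ((below M P).adicCompletion M) with hι
  have hvx : ∀ y : M, v (ι y) = (below M P).valuation M y := fun y => vx _ y
  have va : v (ι a) = 1 := by rw [hvx, ha]
  have hxa : v (ι x - ι a) < 1 := by
    have e1 : ι x - ι a = (e - ι a) - (e - ι x) := by ring
    rw [e1]
    exact lt_sub v h1 hx
  have hxav : (below M P).valuation M (x - a) < 1 := by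
    rw [← hvx, map_sub]
    exact hxa
  have vxx : v (ι x) = 1 := by
    have e1 : ι x = ι a + (ι x - ι a) := by ring
    rw [e1]
    exact eq_one v va hxa
  refine ⟨by rw [← hvx]; exact vxx, ?_⟩
  set V := P.valuation L with hVd
  have V1 : ∀ {y : M}, (below M P).valuation M y < 1 → V (algebraMap M L y) < 1 := by
    intro y hy
    rw [hV]
    exact pow_lt_one' hy (by omega)
  have V2 : V 2 = 1 := by
    have := hV 2
    rw [map_ofNat, h2, one_pow] at this
    exact this
  have Va : V (algebraMap M L a) = 1 := by rw [hV, ha, one_pow]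
  have hVu := unit_of V (a := algebraMap M L a) (x := algebraMap M L x) (z := θ)
    (A := algebraMap M L A) (B := algebraMap M L B) Va V2 (V1 hA) (by
      rw [← map_pow, ← map_add]
      exact V1 hB) (by
      rw [← map_sub]
      exact V1 hxav) hθa
  have e1 : algebraMap M L (x ^ 3 + A * x ^ 2 + B * x + D) = (algebraMap M L x - θ) *
      (algebraMap M L x ^ 2 + algebraMap M L x * θ + θ ^ 2 + algebraMap M L A *
        (algebraMap M L x + θ) + algebraMap M L B) := by
    simp only [map_add, map_mul, map_pow]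
    linear_combination hθ
  have e2 : V (algebraMap M L (x ^ 3 + A * x ^ 2 + B * x + D)) = V (θ - algebraMap M L x) := by
    rw [e1, map_mul, hVu, mul_one, Valuation.map_sub_swap]
  have e3 : v (ι (x ^ 3 + A * x ^ 2 + B * x + D)) ≤ v (e - ι x) := by
    have e4 : ι (x ^ 3 + A * x ^ 2 + B * x + D) = ((ι x - e₀) * (ι x - e')) * (ι x - e) := by
      simp only [map_add, map_mul, map_pow]
      rw [hsp]
      ring
    have ve' : v e' ≤ 1 := by
      have e5 : e' = (e' + ι a) - ι a := by ring
      rw [e5]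
      exact (v.map_sub _ _).trans (max_le h3.le va.le)
    rw [e4, map_mul, Valuation.map_sub_swap v (ι x) e]
    refine mul_le_of_le_one_left zero_le (le_mul v ?_ ?_)
    · exact (v.map_sub _ _).trans (max_le vxx.le h0.le)
    · exact (v.map_sub _ _).trans (max_le vxx.le ve')
  rw [← e2, hV, ← hvx]
  refine le_trans ?_ e3
  exact pow_le_of_le_one zero_le (e3.trans hx.le) (by omega)

/-- The squares. -/
theorem sqs (P : HeightOneSpectrum (𝓞 L)) {θ : L} {e : (below M P).adicCompletion M}
    (hθ : P.valuation L θ ≤ 1) (he : Valued.v (Γ₀ := WithZero (Multiplicative ℤ)) e ≤ 1)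
    (H : ∀ x : M, Valued.v (Γ₀ := WithZero (Multiplicative ℤ))
      (e - algebraMap M ((below M P).adicCompletion M) x) < 1 →
      (below M P).valuation M x = 1 ∧
      P.valuation L (θ - algebraMap M L x) ≤ Valued.v (Γ₀ := WithZero (Multiplicative ℤ))
        (e - algebraMap M ((below M P).adicCompletion M) x)) (p : M[X])
    (hp : aeval θ p ≠ 0) :
    (p.map (algebraMap M ((below M P).adicCompletion M))).eval e ≠ 0 ∧
      (IsSquare ((p.map (algebraMap M ((below M P).adicCompletion M))).eval e) →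
        Sq1 P (aeval θ p)) := by
  obtain ⟨n, hn, hV⟩ := val_pow (K := M) P
  obtain ⟨c, hc0, hc⟩ := exists_int (below M P) p
  set v : Valuation ((below M P).adicCompletion M) (WithZero (Multiplicative ℤ)) := Valued.v with hv
  set ι := algebraMap M ((below M P).adicCompletion M) with hι
  set V := P.valuation L with hVd
  have hvx : ∀ y : M, v (ι y) = (below M P).valuation M y := fun y => vx _ y
  have Kw : ∀ x : M, (below M P).valuation M x = 1 →
      v (ι c) * v ((p.map ι).eval e - ι (p.eval x)) ≤ v (e - ι x) := by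
    intro x hx
    have h := lip v ((C c * p).map ι) (by
      intro i
      rw [coeff_map, coeff_C_mul, hvx]
      exact hc i) he (by rw [hvx, hx] : v (ι x) ≤ 1)
    have e1 : ((C c * p).map ι).eval e - ((C c * p).map ι).eval (ι x) =
        ι c * ((p.map ι).eval e - ι (p.eval x)) := by
      rw [Polynomial.map_mul, eval_mul, eval_mul, map_C, eval_C, eval_C, eval_map (x := ι x),
        eval₂_at_apply]
      ring
    rw [e1, map_mul] at h
    exact h
  have KV : ∀ x : M, (below M P).valuation M x = 1 →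
      V (algebraMap M L c) * V (aeval θ p - algebraMap M L (p.eval x)) ≤
        V (θ - algebraMap M L x) := by
    intro x hx
    have h := lip V ((C c * p).map (algebraMap M L)) (by
      intro i
      rw [coeff_map, coeff_C_mul, hV]
      exact pow_le_one' (hc i) _) hθ (by
        rw [hV, hx, one_pow] : V (algebraMap M L x) ≤ 1)
    have e1 : ((C c * p).map (algebraMap M L)).eval θ -
        ((C c * p).map (algebraMap M L)).eval (algebraMap M L x) =
        algebraMap M L c * (aeval θ p - algebraMap M L (p.eval x)) := by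
      rw [Polynomial.map_mul, eval_mul, eval_mul, map_C, eval_C, eval_C, eval_map (x :=
        algebraMap M L x), eval₂_at_apply, eval_map_algebraMap]
      ring
    rw [e1, map_mul] at h
    exact h
  have vc : v (ι c) ≠ 0 := (Valuation.ne_zero_iff _).2 ((_root_.map_ne_zero _).2 hc0)
  have Vc : V (algebraMap M L c) ≠ 0 := (Valuation.ne_zero_iff _).2 ((_root_.map_ne_zero _).2 hc0)
  have Vp : V (aeval θ p) ≠ 0 := (Valuation.ne_zero_iff _).2 hp
  have S1 : ∀ x : M, v (e - ι x) < 1 → v (e - ι x) < V (algebraMap M L c) * V (aeval θ p) →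
      V (aeval θ p - algebraMap M L (p.eval x)) < V (aeval θ p) := by
    intro x hx1 hx2
    obtain ⟨h3, h4⟩ := H x hx1
    have h5 := ((KV x h3).trans h4).trans_lt hx2
    exact lt_of_mul_lt_mul_left h5 zero_le
  have S2 : ∀ x : M, V (aeval θ p - algebraMap M L (p.eval x)) < V (aeval θ p) →
      V (algebraMap M L (p.eval x)) = V (aeval θ p) := by
    intro x hx
    have := Valuation.map_sub_eq_of_lt_left V hx
    rwa [sub_sub_cancel] at this
  have N : (p.map ι).eval e ≠ 0 := by
    intro h
    have hγ : min 1 (V (algebraMap M L c) * V (aeval θ p)) ≠ 0 := by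
      rcases min_choice 1 (V (algebraMap M L c) * V (aeval θ p)) with h | h <;> rw [h]
      · exact one_ne_zero
      · exact mul_ne_zero Vc Vp
    obtain ⟨x, hx⟩ := near (below M P) e hγ
    obtain ⟨hx1, hx2⟩ := lt_min_iff.1 hx
    obtain ⟨h3, h4⟩ := H x hx1
    have h5 := S2 x (S1 x hx1 hx2)
    have h6 := Kw x h3
    rw [h, zero_sub, Valuation.map_neg, ← map_mul, ← map_mul, hvx] at h6
    have h7 : V (algebraMap M L c) * V (aeval θ p) = (below M P).valuation M (c * p.eval x) ^ n := by
      rw [← h5, ← map_mul, ← map_mul, hV]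
    have h8 : (below M P).valuation M (c * p.eval x) ^ n ≤
        (below M P).valuation M (c * p.eval x) :=
      pow_le_of_le_one zero_le (h6.trans hx1.le) (by omega)
    rw [← h7] at h8
    exact absurd (h6.trans_lt hx2) (not_lt.2 h8)
  refine ⟨N, ?_⟩
  rintro ⟨s, hs⟩
  have vp : v ((p.map ι).eval e) ≠ 0 := (Valuation.ne_zero_iff _).2 N
  have hγ : min (min 1 (V (algebraMap M L c) * V (aeval θ p))) (v (ι c) * v ((p.map ι).eval e)) ≠
      0 := by
    rcases min_choice (min 1 (V (algebraMap M L c) * V (aeval θ p)))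
      (v (ι c) * v ((p.map ι).eval e)) with h | h <;> rw [h]
    · rcases min_choice 1 (V (algebraMap M L c) * V (aeval θ p)) with h | h <;> rw [h]
      · exact one_ne_zero
      · exact mul_ne_zero Vc Vp
    · exact mul_ne_zero vc vp
  obtain ⟨x, hx⟩ := near (below M P) e hγ
  obtain ⟨hx12, hx3⟩ := lt_min_iff.1 hx
  obtain ⟨hx1, hx2⟩ := lt_min_iff.1 hx12
  obtain ⟨h3, h4⟩ := H x hx1
  have h5 := S1 x hx1 hx2
  have h6 := S2 x h5
  have h7 : v ((p.map ι).eval e - ι (p.eval x)) < v ((p.map ι).eval e) :=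
    lt_of_mul_lt_mul_left ((Kw x h3).trans_lt hx3) zero_le
  have h8 : v (ι (p.eval x)) = v ((p.map ι).eval e) := by
    have := Valuation.map_sub_eq_of_lt_left v h7
    rwa [sub_sub_cancel] at this
  obtain ⟨s', hs'⟩ := sq1_of (below M P) (p.eval x) s (by
    have e1 : ι (p.eval x) - s ^ 2 = -((p.map ι).eval e - ι (p.eval x)) := by
      rw [hs]
      ring
    show v (ι (p.eval x) - s ^ 2) < v (ι (p.eval x))
    rw [e1, Valuation.map_neg, h8]
    exact h7)
  refine ⟨algebraMap M L s', ?_⟩
  have e1 : aeval θ p - algebraMap M L s' ^ 2 = (aeval θ p - algebraMap M L (p.eval x)) +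
      algebraMap M L (p.eval x - s' ^ 2) := by
    rw [map_sub, map_pow]
    ring
  show V (aeval θ p - algebraMap M L s' ^ 2) < V (aeval θ p)
  rw [e1]
  refine (V.map_add _ _).trans_lt (max_lt h5 ?_)
  rw [← h6, hV, hV]
  exact pow_lt_pow_left₀ hs' zero_le (by omega)

/-- The statement, for a given approximate root. -/
theorem core (P : HeightOneSpectrum (𝓞 L)) {A B D a : M} {θ : L}
    (h2 : (below M P).valuation M 2 = 1) (ha : (below M P).valuation M a = 1)
    (hA : (below M P).valuation M A < 1) (hB : (below M P).valuation M (B + a ^ 2) < 1)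
    (hD : (below M P).valuation M D < 1)
    (hθ : θ ^ 3 + algebraMap M L A * θ ^ 2 + algebraMap M L B * θ + algebraMap M L D = 0)
    (hθa : P.valuation L (θ - algebraMap M L a) < 1) (hθ1 : P.valuation L θ = 1) :
    ∃ e₀ e e' : (below M P).adicCompletion M,
      (X ^ 3 + C A * X ^ 2 + C B * X + C D : M[X]).map
          (algebraMap M ((below M P).adicCompletion M)) =
        (X - C e₀) * (X - C e) * (X - C e') ∧
      Valued.v e₀ < 1 ∧ Valued.v e = 1 ∧ Valued.v (e + e') < 1 ∧
      ∀ p : M[X], aeval θ p ≠ 0 →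
        (p.map (algebraMap M ((below M P).adicCompletion M))).eval e ≠ 0 ∧
        (IsSquare ((p.map (algebraMap M ((below M P).adicCompletion M))).eval e) →
          Sq1 P (aeval θ p)) := by
  have hvx : ∀ y : M, Valued.v (Γ₀ := WithZero (Multiplicative ℤ))
      (algebraMap M ((below M P).adicCompletion M) y) = (below M P).valuation M y :=
    fun y => vx _ y
  obtain ⟨e₀, e, e', hsp, k0, k1, k2⟩ := cub_split (L := (below M P).adicCompletion M)
    (A := algebraMap M ((below M P).adicCompletion M) A)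
    (B := algebraMap M ((below M P).adicCompletion M) B)
    (D := algebraMap M ((below M P).adicCompletion M) D)
    (a := algebraMap M ((below M P).adicCompletion M) a)
    (by
      have := hvx 2
      rw [map_ofNat, h2] at this
      exact this)
    (by rw [hvx, ha]) (by rw [hvx]; exact hA) (by
      rw [← map_pow, ← map_add, hvx]
      exact hB) (by rw [hvx]; exact hD)
  have hmap : (X ^ 3 + C A * X ^ 2 + C B * X + C D : M[X]).map
      (algebraMap M ((below M P).adicCompletion M)) =
      X ^ 3 + C (algebraMap M ((below M P).adicCompletion M) A) * X ^ 2 +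
        C (algebraMap M ((below M P).adicCompletion M) B) * X +
        C (algebraMap M ((below M P).adicCompletion M) D) := by
    simp only [Polynomial.map_add, Polynomial.map_mul, Polynomial.map_pow, map_X, map_C]
  have ve : Valued.v (Γ₀ := WithZero (Multiplicative ℤ)) e = 1 := by
    have e1 : e = algebraMap M ((below M P).adicCompletion M) a +
        (e - algebraMap M ((below M P).adicCompletion M) a) := by ring
    rw [e1]
    exact eq_one _ (by rw [hvx, ha]) k1
  refine ⟨e₀, e, e', by rw [hmap, hsp], k0, ve, ?_, ?_⟩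
  · have e1 : e + e' = (e - algebraMap M ((below M P).adicCompletion M) a) +
        (e' + algebraMap M ((below M P).adicCompletion M) a) := by ring
    rw [e1]
    exact lt_add _ k1 k2
  · intro p hp
    refine sqs P hθ1.le ve.le (fun x hx => ?_) p hp
    refine cmp P h2 ha hA hB hθ hθa (fun y => ?_) k0 k1 k2 hx
    have := congrArg (fun q => eval y q) hsp
    simpa only [eval_add, eval_mul, eval_pow, eval_X, eval_C, eval_sub] using this

end cmp

theorem spl_root {M L : Type} [Field M] [NumberField M] [Field L] [NumberField L] [Algebra M L]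
    (P : HeightOneSpectrum (𝓞 L)) {f : M[X]} {h₀ : (𝓞 M)[X]} {θ : L} (hfm : f.Monic)
    (hfd : f.natDegree = 3) (hm : h₀.Monic) (hd : h₀.natDegree = 2)
    (h1 : h₀.coeff 1 ∈ (below M P).asIdeal)
    (h0 : h₀.coeff 0 ∉ (below M P).asIdeal) (h2 : (2 : 𝓞 M) ∉ (below M P).asIdeal)
    (hred : ¬ Irreducible (h₀.map (Ideal.Quotient.mk (below M P).asIdeal)))
    (hcg : ∀ j, (below M P).valuation M
      (f.coeff j - algebraMap (𝓞 M) M ((X * h₀).coeff j)) < 1)
    (hroot : aeval θ f = 0) (v1 : P.valuation L θ = 1) :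
    ∃ e₀ e e' : (below M P).adicCompletion M,
      f.map (algebraMap M ((below M P).adicCompletion M)) =
        (X - C e₀) * (X - C e) * (X - C e') ∧
      Valued.v e₀ < 1 ∧ Valued.v e = 1 ∧ Valued.v (e + e') < 1 ∧
      ∀ p : M[X], aeval θ p ≠ 0 →
        (p.map (algebraMap M ((below M P).adicCompletion M))).eval e ≠ 0 ∧
        (IsSquare ((p.map (algebraMap M ((below M P).adicCompletion M))).eval e) →
          Sq1 P (aeval θ p)) := by
  obtain ⟨n, hn, hV⟩ := val_pow (K := M) P
  haveI hmax : (below M P).asIdeal.IsMaximal := (below M P).isMaximal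
  haveI hpr : (below M P).asIdeal.IsPrime := hmax.isPrime
  have hlt : ∀ {x : 𝓞 M}, x ∈ (below M P).asIdeal →
      (below M P).valuation M (algebraMap (𝓞 M) M x) < 1 := fun {x} hx =>
    (HeightOneSpectrum.valuation_lt_one_iff_mem (K := M) (below M P) x).2 hx
  have hun : ∀ {x : 𝓞 M}, x ∉ (below M P).asIdeal →
      (below M P).valuation M (algebraMap (𝓞 M) M x) = 1 := fun {x} hx =>
    le_antisymm ((below M P).valuation_le_one x) (not_lt.1 fun h =>
      hx ((HeightOneSpectrum.valuation_lt_one_iff_mem (K := M) (below M P) x).1 h))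
  -- the root of the quadratic polynomial
  obtain ⟨a₀, ha₀⟩ : ∃ a₀ : 𝓞 M, h₀.eval a₀ ∈ (below M P).asIdeal := by
    have hmm := hm.map (Ideal.Quotient.mk (below M P).asIdeal)
    have hdm : (h₀.map (Ideal.Quotient.mk (below M P).asIdeal)).natDegree = 2 := by
      rw [hm.natDegree_map, hd]
    rw [hmm.irreducible_iff_roots_eq_zero_of_degree_le_three (by omega) (by omega)] at hred
    obtain ⟨r, hr⟩ := Multiset.exists_mem_of_ne_zero hred
    obtain ⟨a₀, rfl⟩ := Ideal.Quotient.mk_surjective r
    have h3 := (mem_roots'.1 hr).2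
    rw [IsRoot, eval_map, eval₂_at_apply] at h3
    exact ⟨a₀, Ideal.Quotient.eq_zero_iff_mem.1 h3⟩
  have he₀ : h₀.eval a₀ = a₀ ^ 2 + h₀.coeff 1 * a₀ + h₀.coeff 0 := by
    have hc2 : h₀.coeff 2 = 1 := by
      have := hm.coeff_natDegree
      rwa [hd] at this
    rw [eval_eq_sum_range, hd]
    simp only [Finset.sum_range_succ, Finset.sum_range_zero, zero_add, pow_zero, mul_one, pow_one,
      hc2, one_mul]
    ring
  have hna : a₀ ∉ (below M P).asIdeal := by
    intro h
    apply h0
    have e1 : h₀.coeff 0 = h₀.eval a₀ - (a₀ + h₀.coeff 1) * a₀ := by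
      rw [he₀]
      ring
    rw [e1]
    exact Ideal.sub_mem _ ha₀ (Ideal.mul_mem_left _ _ h)
  -- the coefficients
  have hc3 : f.coeff 3 = 1 := by
    have := hfm.coeff_natDegree
    rwa [hfd] at this
  have hf : f = X ^ 3 + C (f.coeff 2) * X ^ 2 + C (f.coeff 1) * X + C (f.coeff 0) := by
    conv_lhs => rw [f.as_sum_range_C_mul_X_pow, hfd]
    simp only [Finset.sum_range_succ, Finset.sum_range_zero, zero_add, pow_zero, mul_one, pow_one,
      hc3, C_1, one_mul]
    ring
  set w := (below M P).valuation M with hw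
  have hA : w (f.coeff 2) < 1 := by
    have h3 := hcg 2
    rw [coeff_X_mul] at h3
    have e1 : f.coeff 2 = (f.coeff 2 - algebraMap (𝓞 M) M (h₀.coeff 1)) +
        algebraMap (𝓞 M) M (h₀.coeff 1) := by ring
    rw [e1]
    exact lt_add w h3 (hlt h1)
  have hB : w (f.coeff 1 + (algebraMap (𝓞 M) M a₀) ^ 2) < 1 := by
    have h3 := hcg 1
    rw [coeff_X_mul] at h3
    have e1 : f.coeff 1 + (algebraMap (𝓞 M) M a₀) ^ 2 =
        (f.coeff 1 - algebraMap (𝓞 M) M (h₀.coeff 0)) +
        (algebraMap (𝓞 M) M (h₀.eval a₀ - h₀.coeff 1 * a₀)) := by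
      rw [he₀]
      simp only [map_sub, map_add, map_mul, map_pow]
      ring
    rw [e1]
    exact lt_add w h3 (hlt (Ideal.sub_mem _ ha₀ (Ideal.mul_mem_right _ _ h1)))
  have hD : w (f.coeff 0) < 1 := by
    have h3 := hcg 0
    rw [coeff_X_mul_zero, map_zero, sub_zero] at h3
    exact h3
  have hw2 : w 2 = 1 := by
    have := hun h2
    rwa [map_ofNat] at this
  have hwa : w (algebraMap (𝓞 M) M a₀) = 1 := hun hna
  have hθ : θ ^ 3 + algebraMap M L (f.coeff 2) * θ ^ 2 + algebraMap M L (f.coeff 1) * θ +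
      algebraMap M L (f.coeff 0) = 0 := by
    have h3 := hroot
    rw [hf] at h3
    simpa only [map_add, map_mul, map_pow, aeval_X, aeval_C] using h3
  set V := P.valuation L with hVd
  have V1 : ∀ {y : M}, w y < 1 → V (algebraMap M L y) < 1 := by
    intro y hy
    rw [hV]
    exact pow_lt_one' hy (by omega)
  have Va : V (algebraMap M L (algebraMap (𝓞 M) M a₀)) = 1 := by rw [hV, hwa, one_pow]
  have hq : V (θ ^ 2 + algebraMap M L (f.coeff 2) * θ + algebraMap M L (f.coeff 1)) < 1 := by
    have e1 : θ * (θ ^ 2 + algebraMap M L (f.coeff 2) * θ + algebraMap M L (f.coeff 1)) =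
        -algebraMap M L (f.coeff 0) := by
      linear_combination hθ
    have e2 := congrArg V e1
    rw [map_mul, v1, one_mul, Valuation.map_neg] at e2
    rw [e2]
    exact V1 hD
  have hprod : V ((θ - algebraMap M L (algebraMap (𝓞 M) M a₀)) *
      (θ + algebraMap M L (algebraMap (𝓞 M) M a₀))) < 1 := by
    have e1 : (θ - algebraMap M L (algebraMap (𝓞 M) M a₀)) *
        (θ + algebraMap M L (algebraMap (𝓞 M) M a₀)) =
        (θ ^ 2 + algebraMap M L (f.coeff 2) * θ + algebraMap M L (f.coeff 1)) -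
        algebraMap M L (f.coeff 2) * θ -
        algebraMap M L (f.coeff 1 + (algebraMap (𝓞 M) M a₀) ^ 2) := by
      simp only [map_add, map_pow]
      ring
    rw [e1]
    exact lt_sub V (lt_sub V hq (lt_mul V (V1 hA) v1.le)) (V1 hB)
  have hcase : V (θ - algebraMap M L (algebraMap (𝓞 M) M a₀)) < 1 ∨
      V (θ + algebraMap M L (algebraMap (𝓞 M) M a₀)) < 1 := by
    by_contra hcon
    rw [not_or, not_lt, not_lt] at hcon
    rw [map_mul] at hprod
    exact absurd hprod (not_lt.2 (one_le_mul hcon.1 hcon.2))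
  rw [hf]
  rcases hcase with h | h
  · exact core P hw2 hwa hA hB hD hθ h v1
  · refine core P (a := -algebraMap (𝓞 M) M a₀) hw2 ?_ hA ?_ hD hθ ?_ v1
    · rw [Valuation.map_neg]; exact hwa
    · rw [neg_sq]; exact hB
    · rw [map_neg, sub_neg_eq_add]; exact h

end Pool.Agent.H337.TW2
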