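import Pool.Agent.H459.TW2.Root
import Pool.Agent.H459.TW2.Locq
import Pool.Agent.H459.TW2.Lrg

/-!
# The classes at the twisting primes of even residue degree (helper459)
-/

set_option autoImplicit false
set_option linter.all false

open Polynomial IsDedekindDomain NumberField WithZero MulAction
open scoped Classical IntermediateField Pointwise

namespace Pool.Agent.H459.TW2

open Pool.Agent.H459.UF (below mem_below Dns Unr Cub fb val_pow)
open Pool.Agent.H459.UT (DatT charzero_cpt sq4)
open Pool.Agent.N874.PP (Ev Sq1 U0)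
open Pool.Agent.N874.JM (LocF)
open Pool.Agent.N783.PQ (LocIm)

theorem ev_of_sq1 {L : Type} [Field L] [NumberField L] {P : HeightOneSpectrum (𝓞 L)} {x : L}
    (h : Sq1 P x) : Ev P x := by
  obtain ⟨s, hs⟩ := h
  refine ⟨s, ?_⟩
  rw [← map_pow]
  rw [Valuation.map_sub_swap] at hs
  exact (Valuation.map_eq_of_sub_lt _ hs).symm

theorem spl {M L : Type} [Field M] [NumberField M] [Field L] [NumberField L] [Algebra M L]
    (P : HeightOneSpectrum (𝓞 L)) {f h : M[X]} {h₀ : (𝓞 M)[X]} {θ : L} {q D' : M} (hfm : f.Monic)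
    (hfd : f.natDegree = 3) (hm : h₀.Monic) (hd : h₀.natDegree = 2)
    (h1 : h₀.coeff 1 ∈ (below M P).asIdeal)
    (h0 : h₀.coeff 0 ∉ (below M P).asIdeal) (h2 : (2 : 𝓞 M) ∉ (below M P).asIdeal)
    (hred : ¬ Irreducible (h₀.map (Ideal.Quotient.mk (below M P).asIdeal)))
    (hcg : ∀ j, (below M P).valuation M
      (f.coeff j - algebraMap (𝓞 M) M ((X * h₀).coeff j)) < 1)
    (hroot : aeval θ f = 0) (v1 : P.valuation L θ = 1)
    (hm1 : IsSquare (-1 : (below M P).adicCompletion M))
    (hs2 : IsSquare (2 : (below M P).adicCompletion M))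
    (t1 : P.valuation L (algebraMap M L q) = WithZero.exp (-1 : ℤ))
    (vD' : (below M P).valuation M D' = 1) (s2 : Sq1 P (algebraMap M L D'))
    (hl : LocF ((below M P).adicCompletion M) (f.scaleRoots (q * D')) h)
    (hne : aeval (algebraMap M L (q * D') * θ) h ≠ 0) :
    U0 P (algebraMap M L q * θ) (aeval (algebraMap M L (q * D') * θ) h) := by
  obtain ⟨e₀, e, e', hf, he₀, he, hee, hcmp⟩ := Pool.Agent.H337.TW2.spl_root P hfm hfd hm hd h1 h0 h2 hred hcg hroot v1
  haveI := charzero_cpt (below M P)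
  obtain ⟨a, ha⟩ : ∃ a, a = algebraMap M ((below M P).adicCompletion M) := ⟨_, rfl⟩
  obtain ⟨D, hD⟩ : ∃ D, D = a (q * D') := ⟨_, rfl⟩
  rw [← ha] at hf hcmp
  obtain ⟨n, hn, hv⟩ := val_pow (K := M) P
  -- valuations
  have hvq : (below M P).valuation M q = WithZero.exp (-1 : ℤ) := by
    have h5 := hv q
    rw [t1] at h5
    have hy0 : (below M P).valuation M q ≠ 0 := by
      intro h0
      rw [h0, zero_pow (by omega)] at h5
      exact WithZero.exp_ne_zero h5
    obtain ⟨b, hb⟩ : ∃ b : ℤ, (below M P).valuation M q = WithZero.exp b :=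
      ⟨WithZero.log _, (WithZero.exp_log hy0).symm⟩
    rw [hb, ← WithZero.exp_nsmul] at h5
    have h6 := WithZero.exp_injective h5
    simp only [nsmul_eq_mul] at h6
    have h7 : (n : ℤ) ∣ 1 := ⟨-b, by linarith⟩
    have h8 : (n : ℤ) = 1 := Int.eq_one_of_dvd_one (by positivity) h7
    rw [h8, one_mul] at h6
    rw [hb, ← h6]
  have hvD : Valued.v (Γ₀ := WithZero (Multiplicative ℤ)) D = WithZero.exp (-1 : ℤ) := by
    rw [hD, ha, Pool.Agent.N704.PP.vx, map_mul, hvq, vD', mul_one]
  have hD0 : D ≠ 0 := by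
    rintro rfl
    rw [map_zero] at hvD
    exact WithZero.exp_ne_zero hvD.symm
  have hv2 : Valued.v (Γ₀ := WithZero (Multiplicative ℤ)) (2 : (below M P).adicCompletion M) = 1 := by
    have e2 : (2 : (below M P).adicCompletion M) =
        algebraMap M ((below M P).adicCompletion M) (algebraMap (𝓞 M) M (2 : 𝓞 M)) := by
      simp only [map_ofNat]
    rw [e2, Pool.Agent.N704.PP.vx]
    exact Pool.Agent.N78.PF.val_one h2
  have hsq : ∀ x : (below M P).adicCompletion M,
      Valued.v (Γ₀ := WithZero (Multiplicative ℤ)) x < 1 → IsSquare (1 + x) := by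
    intro x hx
    refine sq4 _ x ?_
    have e4 : (4 : (below M P).adicCompletion M) = 2 * 2 := by norm_num
    rw [e4, map_mul, hv2, mul_one]
    exact hx
  have hDodd : ∀ y : (below M P).adicCompletion M,
      Valued.v (Γ₀ := WithZero (Multiplicative ℤ)) D ≠
        Valued.v (Γ₀ := WithZero (Multiplicative ℤ)) y ^ 2 := by
    intro y hy
    rw [hvD] at hy
    have hy0 : Valued.v (Γ₀ := WithZero (Multiplicative ℤ)) y ≠ 0 := by
      intro h0
      rw [h0, zero_pow (by omega)] at hy
      exact WithZero.exp_ne_zero hy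
    obtain ⟨b, hb⟩ : ∃ b : ℤ, Valued.v (Γ₀ := WithZero (Multiplicative ℤ)) y = WithZero.exp b :=
      ⟨WithZero.log _, (WithZero.exp_log hy0).symm⟩
    rw [hb, ← WithZero.exp_nsmul] at hy
    have h6 := WithZero.exp_injective hy
    simp only [nsmul_eq_mul] at h6
    push_cast at h6
    omega
  have hvD1 : Valued.v (Γ₀ := WithZero (Multiplicative ℤ)) D < 1 := by
    rw [hvD, ← WithZero.exp_zero, WithZero.exp_lt_exp]
    norm_num
  -- the scaled polynomial
  have hDf : (f.scaleRoots (q * D')).map a = (X - C (D * e₀)) * (X - C (D * e)) * (X - C (D * e')) := by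
    refine Polynomial.funext fun y => ?_
    have e1 := scaleRoots_eval₂_mul (p := f) a (y / D) (q * D')
    rw [← hD, mul_div_cancel₀ _ hD0, ← eval_map, ← eval_map, hf, hfd] at e1
    rw [e1]
    simp only [eval_mul, eval_sub, eval_X, eval_C]
    field_simp
  have hfm' : ((f.scaleRoots (q * D')).map a).Monic :=
    ((monic_scaleRoots_iff (q * D')).2 hfm).map _
  have hfd' : ((f.scaleRoots (q * D')).map a).natDegree = 3 := by
    rw [((monic_scaleRoots_iff (q * D')).2 hfm).natDegree_map, natDegree_scaleRoots, hfd]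
  have he0 : e ≠ 0 := by
    rintro rfl
    rw [map_zero] at he
    exact zero_ne_one he
  have h20 : (2 : (below M P).adicCompletion M) ≠ 0 := two_ne_zero
  -- the derivative
  have hder : (derivative ((f.scaleRoots (q * D')).map a)).eval (D * e) =
      D ^ 2 * ((e - e₀) * (e - e')) := by
    rw [hDf]
    simp only [derivative_mul, derivative_sub, derivative_X, derivative_C, eval_add, eval_mul,
      eval_sub, eval_X, eval_C, eval_one, eval_zero]
    ring
  obtain ⟨s, hs0, hs⟩ := Pool.Agent.H114.TW2.sim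
    (Valued.v (R := (below M P).adicCompletion M) (Γ₀ := WithZero (Multiplicative ℤ))) hsq
    (a := e - e₀) (b := e) (by
      have : e - e₀ - e = - e₀ := by ring
      rw [this, Valuation.map_neg, he]
      exact he₀)
  obtain ⟨t, ht0, ht⟩ := Pool.Agent.H114.TW2.sim
    (Valued.v (R := (below M P).adicCompletion M) (Γ₀ := WithZero (Multiplicative ℤ))) hsq
    (a := e - e') (b := 2 * e) (by
      have : e - e' - 2 * e = - (e + e') := by ring
      rw [this, Valuation.map_neg, map_mul, hv2, he, one_mul]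
      exact hee)
  obtain ⟨w2, hw2⟩ := hs2
  have hdsq : (derivative ((f.scaleRoots (q * D')).map a)).eval (D * e) =
      (w2 * D * e * s * t) * (w2 * D * e * s * t) := by
    rw [hder, hs, ht]
    have e5 : (w2 * D * e * s * t) * (w2 * D * e * s * t) = (w2 * w2) * (D * e * s * t) ^ 2 := by
      ring
    rw [e5, ← hw2]
    ring
  have hw20 : w2 ≠ 0 := by
    rintro rfl
    rw [mul_zero] at hw2
    exact h20 hw2
  have hr : ((f.scaleRoots (q * D')).map a).eval (D * e) = 0 := by
    rw [hDf]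
    simp
  obtain ⟨G, hG⟩ : ∃ G : (below M P).adicCompletion M → Prop,
      G = fun x => IsSquare x ∨ IsSquare (x * (D * e)) := ⟨_, rfl⟩
  have hDe : D * e ≠ 0 := mul_ne_zero hD0 he0
  have hGs : ∀ z : (below M P).adicCompletion M, z ≠ 0 → G (z * z) := by
    intro z _
    rw [hG]
    exact Or.inl ⟨z, rfl⟩
  have hGm : ∀ x y, G x → G y → G (x * y) := by
    rw [hG]
    rintro x y (⟨u, hu⟩ | ⟨u, hu⟩) (⟨u', hu'⟩ | ⟨u', hu'⟩)
    · exact Or.inl ⟨u * u', by rw [hu, hu']; ring⟩
    · exact Or.inr ⟨u * u', by rw [mul_assoc, hu', hu]; ring⟩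
    · exact Or.inr ⟨u * u', by rw [mul_right_comm, hu, hu']; ring⟩
    · refine Or.inl ⟨u * u' / (D * e), ?_⟩
      field_simp
      linear_combination (u' * u') * hu + (x * (D * e)) * hu'
  have hGi : ∀ x y, y ≠ 0 → G (x * (y * y)) → G x := by
    rw [hG]
    rintro x y hy (⟨u, hu⟩ | ⟨u, hu⟩)
    · refine Or.inl ⟨u / y, ?_⟩
      field_simp
      linear_combination hu
    · refine Or.inr ⟨u / y, ?_⟩
      field_simp
      linear_combination hu
  -- the element
  obtain ⟨p, hp⟩ : ∃ p : M[X], p = h.comp (C (q * D') * X) := ⟨_, rfl⟩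
  have hval : aeval θ p = aeval (algebraMap M L (q * D') * θ) h := by
    rw [hp, aeval_comp, map_mul, aeval_C, aeval_X]
  have hvale : (p.map a).eval e = (h.map a).eval (D * e) := by
    rw [hp, Polynomial.map_comp, eval_comp, Polynomial.map_mul, map_C, map_X, eval_mul, eval_C,
      eval_X, ← hD]
  obtain ⟨hc1, hc2⟩ := hcmp p (by rw [hval]; exact hne)
  rw [hvale] at hc1 hc2
  rw [hval] at hc2
  have hmain := Pool.Agent.H803.TW2.lrg_loc G hGs hGm hGi hfm' hfd' hr (by
      rw [hdsq]
      have : w2 * D * e * s * t ≠ 0 := by positivity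
      exact mul_ne_zero this this) (by
      rw [hdsq]
      exact hGs _ (by positivity)) (by
      intro x y hxy hne'
      rw [hG]
      refine Pool.Agent.H114.TW2.locq
        (Valued.v (R := (below M P).adicCompletion M) (Γ₀ := WithZero (Multiplicative ℤ)))
        hv2 hsq hm1 ⟨w2, hw2⟩ hvD1 hD0 hDodd he₀ he hee (x := x) (y := y) ?_ hne'
      rw [hxy, hDf]
      simp) (h := h.map a) hc1 (by
      rw [ha]
      exact hl)
  obtain ⟨z, hz⟩ : ∃ z, z = aeval (algebraMap M L (q * D') * θ) h := ⟨_, rfl⟩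
  rw [← hz] at hc2 hne ⊢
  rw [hG] at hmain
  rcases hmain with hsq1 | hsq1
  · have h5 := hc2 hsq1
    exact ⟨fun _ => h5, fun h6 => absurd (ev_of_sq1 h5) h6⟩
  · have hθ0 : θ ≠ 0 := by
      rintro rfl
      rw [map_zero] at v1
      exact zero_ne_one v1
    have hvD'L : P.valuation L (algebraMap M L D') = 1 := by
      rw [hv, vD', one_pow]
    have hqD0 : algebraMap M L (q * D') ≠ 0 := by
      intro h6
      have h7 : P.valuation L (algebraMap M L (q * D')) = WithZero.exp (-1 : ℤ) := by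
        rw [map_mul, map_mul, t1, hvD'L, mul_one]
      rw [h6, map_zero] at h7
      exact WithZero.exp_ne_zero h7.symm
    obtain ⟨p', hp'⟩ : ∃ p' : M[X], p' = p * (C (q * D') * X) := ⟨_, rfl⟩
    have hval' : aeval θ p' = z * (algebraMap M L (q * D') * θ) := by
      rw [hp', map_mul (aeval θ), hval, ← hz, map_mul (aeval θ), aeval_C, aeval_X]
    have hvale' : (p'.map a).eval e = (h.map a).eval (D * e) * (D * e) := by
      rw [hp', Polynomial.map_mul, eval_mul, hvale, Polynomial.map_mul, map_C, map_X, eval_mul,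
        eval_C, eval_X, ← hD]
    obtain ⟨-, hc4⟩ := hcmp p' (by
      rw [hval']
      exact mul_ne_zero hne (mul_ne_zero hqD0 hθ0))
    rw [hval', hvale'] at hc4
    have h5 := hc4 hsq1
    have h6 : ¬ Ev P z := by
      rintro ⟨y, hy⟩
      obtain ⟨y', hy'⟩ := ev_of_sq1 h5
      have hz0 : P.valuation L z ≠ 0 := (Valuation.ne_zero_iff _).2 hne
      have hy0 : y ≠ 0 := by
        rintro rfl
        rw [map_zero, zero_pow two_ne_zero] at hy
        exact hz0 hy
      refine Pool.Agent.N891.PQ.not_ev_exp (𝔓 := P) (x := algebraMap M L (q * D') * θ) ?_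
        ⟨y' / y, ?_⟩
      · rw [map_mul, map_mul, map_mul, t1, hvD'L, mul_one, v1, mul_one]
      · rw [map_div₀, div_pow, ← hy, ← hy', map_mul _ z, mul_div_cancel_left₀ _ hz0]
    refine ⟨fun h7 => absurd h7 h6, fun _ => ?_⟩
    obtain ⟨u, hu⟩ := h5
    obtain ⟨b, hb⟩ := s2
    rw [hvD'L] at hb
    have hb1 : P.valuation L (b ^ 2) = 1 := by
      rw [← hvD'L]
      refine Valuation.map_eq_of_sub_lt _ ?_
      rw [Valuation.map_sub_swap, hvD'L]
      exact hb
    have hb0 : b ≠ 0 := by
      rintro rfl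
      rw [zero_pow two_ne_zero, map_zero] at hb1
      exact zero_ne_one hb1
    obtain ⟨X₀, hX₀⟩ : ∃ X₀, X₀ = z * (algebraMap M L q * θ) := ⟨_, rfl⟩
    have hX0 : z * (algebraMap M L (q * D') * θ) = X₀ * algebraMap M L D' := by
      rw [hX₀, map_mul]
      ring
    have hX1 : P.valuation L X₀ ≠ 0 := by
      rw [Valuation.ne_zero_iff, hX₀]
      refine mul_ne_zero hne (mul_ne_zero ?_ hθ0)
      rw [map_mul] at hqD0
      exact left_ne_zero_of_mul hqD0
    rw [hX0, map_mul, hvD'L, mul_one] at hu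
    rw [← hX₀]
    refine ⟨u / b, ?_⟩
    have e9 : X₀ - (u / b) ^ 2 = (X₀ * (b ^ 2 - algebraMap M L D') +
        (X₀ * algebraMap M L D' - u ^ 2)) / b ^ 2 := by
      field_simp
      ring
    rw [e9, map_div₀, hb1, div_one]
    refine (Valuation.map_add _ _ _).trans_lt (max_lt ?_ hu)
    rw [map_mul, Valuation.map_sub_swap]
    calc P.valuation L X₀ * P.valuation L (algebraMap M L D' - b ^ 2) < P.valuation L X₀ * 1 :=
          mul_lt_mul_of_pos_left hb (zero_lt_iff.2 hX1)
      _ = P.valuation L X₀ := mul_one _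

end Pool.Agent.H459.TW2
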