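import Pool.Agent.H459.UT.TopS
import Pool.Agent.H459.TW2.Quad
import Pool.Agent.H459.TW2.Spl

/-!
# From the elements of `M(θ)` to the 2-Selmer group over `M`, residue degree at most two (helper459)

After `UT/TopS.lean`.
-/

set_option autoImplicit false
set_option linter.all false

open Polynomial IsDedekindDomain NumberField WithZero
open scoped Classical IntermediateField

namespace Pool.Agent.H459.TW2

open Pool.Agent.H459.UF (below mem_below below_below exists_above val_pow Agr agr_of_dns Dns dns_up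
  dns_down dns_base agr_top Unr Cub fo fb fb_eq fb_map fb_self exists_poly cub_sub DQ
  coprime_of_ne norm_mk below_self fo_self dns_of_surj exp_lt dns_lt exists_equiv eq_below
  irr_dns lies_below cu cu_monic cu_deg)
open Pool.Agent.H459.UT
open Pool.Agent.N874.PP (Ev Sq1 U0)
open Pool.Agent.N874.JM (LocF)
open Pool.Agent.N783.PQ (LocIm)
open Pool.Agent.N783.PF (IsGen rd fF GoodS SqF Cg sp Ov Dp SelZero)
open Pool.Agent.N78.PF (LOC2 ev_unit map_locF val_one two_cast fF_scale)

/-- An irreducible quadratic polynomial does not vanish at zero. -/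
theorem coeff0_of_irr {F : Type} [Field F] [NumberField F] {I : Ideal (𝓞 F)} (hI : I.IsPrime)
    {p : (𝓞 F)[X]} (hm : p.Monic) (hd : p.natDegree = 2) (hirr : Irreducible (rd I p)) : p.coeff 0 ∉ I := by
  intro h
  haveI : IsDomain (𝓞 F ⧸ I) := Ideal.Quotient.isDomain I
  have h1 : (rd I p).coeff 0 = 0 := by
    rw [rd, coeff_map]
    exact Ideal.Quotient.eq_zero_iff_mem.2 h
  obtain ⟨p', hp'⟩ := X_dvd_iff.2 h1
  have hd' : (rd I p).natDegree = 2 := by
    rw [rd, hm.natDegree_map, hd]
  rcases hirr.isUnit_or_isUnit hp' with h2 | h2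
  · exact not_isUnit_X h2
  · have h3 : p' ≠ 0 := by
      rintro rfl
      rw [mul_zero] at hp'
      rw [hp'] at hd'
      simp at hd'
    rw [hp', natDegree_X_mul h3, natDegree_eq_zero_of_isUnit h2] at hd'
    omega

section sqc

variable {M : Type} [Field M] [NumberField M]

theorem sq_gen (w : HeightOneSpectrum (𝓞 M)) {q : ℕ} (hq : q.Prime) (hq8 : q % 8 = 1)
    (hqw : (q : 𝓞 M) ∈ w.asIdeal) (c b : ℤ) (h : (q : ℤ) ∣ b ^ 2 - c)
    (hc : (c : 𝓞 M) ∉ w.asIdeal) : IsSquare (c : w.adicCompletion M) := by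
  have h2w : (2 : 𝓞 M) ∉ w.asIdeal := by
    intro h2
    apply w.isPrime.ne_top
    rw [Ideal.eq_top_iff_one]
    have h9 : ((q : 𝓞 M)) - 2 * ((q / 2 : ℕ) : 𝓞 M) = 1 := by
      have h10 : q = 2 * (q / 2) + 1 := by omega
      have h11 : (q : 𝓞 M) = 2 * ((q / 2 : ℕ) : 𝓞 M) + 1 := by
        exact_mod_cast congrArg (Nat.cast (R := 𝓞 M)) h10
      rw [h11]
      ring
    rw [← h9]
    exact Ideal.sub_mem _ hqw (Ideal.mul_mem_right _ _ h2)
  have hint : ∀ z : ℤ, Valued.v (Γ₀ := WithZero (Multiplicative ℤ)) (z : w.adicCompletion M) =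
      w.valuation M (algebraMap (𝓞 M) M (z : 𝓞 M)) := by
    intro z
    rw [← Pool.Agent.N704.PP.vx, map_intCast (algebraMap (𝓞 M) M),
      map_intCast (algebraMap M (w.adicCompletion M))]
  have hv2 : Valued.v (Γ₀ := WithZero (Multiplicative ℤ)) (2 : w.adicCompletion M) = 1 := by
    have := hint 2
    rw [Int.cast_ofNat, Int.cast_ofNat] at this
    rw [this]
    exact val_one h2w
  have hvc : Valued.v (Γ₀ := WithZero (Multiplicative ℤ)) (c : w.adicCompletion M) = 1 := by
    rw [hint]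
    exact val_one hc
  have hsq : ∀ x : w.adicCompletion M,
      Valued.v (Γ₀ := WithZero (Multiplicative ℤ)) x < 1 → IsSquare (1 + x) := by
    intro x hx
    refine sq4 _ x ?_
    have e4 : (4 : w.adicCompletion M) = 2 * 2 := by norm_num
    rw [e4, map_mul, hv2, mul_one]
    exact hx
  have h3 : Valued.v (Γ₀ := WithZero (Multiplicative ℤ))
      ((b : w.adicCompletion M) ^ 2 - (c : w.adicCompletion M)) < 1 := by
    have e : (b : w.adicCompletion M) ^ 2 - (c : w.adicCompletion M) =
        ((b ^ 2 - c : ℤ) : w.adicCompletion M) := by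
      push_cast
      ring
    rw [e, hint]
    refine (HeightOneSpectrum.valuation_lt_one_iff_mem (K := M) w _).2 ?_
    obtain ⟨k, hk⟩ := h
    rw [hk]
    push_cast
    exact Ideal.mul_mem_right _ _ hqw
  have h4 : Valued.v (Γ₀ := WithZero (Multiplicative ℤ)) ((b : w.adicCompletion M) ^ 2) = 1 := by
    rw [← hvc]
    refine Valuation.map_eq_of_sub_lt _ ?_
    rw [hvc]
    exact h3
  obtain ⟨s, hs0, hs⟩ := Pool.Agent.H114.TW2.sim
    (Valued.v (R := w.adicCompletion M) (Γ₀ := WithZero (Multiplicative ℤ))) hsq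
    (a := (c : w.adicCompletion M)) (b := (b : w.adicCompletion M) ^ 2) (by
      rw [h4, Valuation.map_sub_swap]
      exact h3)
  exact ⟨b * s, by rw [hs]; ring⟩

theorem sq_m1 (w : HeightOneSpectrum (𝓞 M)) {q : ℕ} (hq : q.Prime) (hq8 : q % 8 = 1)
    (hqw : (q : 𝓞 M) ∈ w.asIdeal) : IsSquare (-1 : w.adicCompletion M) := by
  haveI : Fact q.Prime := ⟨hq⟩
  obtain ⟨x, hx⟩ := (ZMod.exists_sq_eq_neg_one_iff (p := q)).2 (by omega)
  obtain ⟨b, rfl⟩ := ZMod.intCast_surjective x
  have h1 : (q : ℤ) ∣ b ^ 2 - (-1) := by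
    rw [← ZMod.intCast_zmod_eq_zero_iff_dvd]
    push_cast
    rw [hx]
    ring
  have := sq_gen w hq hq8 hqw (-1) b h1 (by
    intro h
    apply w.isPrime.ne_top
    rw [Ideal.eq_top_iff_one]
    push_cast at h
    have := Ideal.neg_mem_iff _ |>.2 h
    simpa using this)
  simpa using this

theorem sq_2 (w : HeightOneSpectrum (𝓞 M)) {q : ℕ} (hq : q.Prime) (hq8 : q % 8 = 1)
    (hqw : (q : 𝓞 M) ∈ w.asIdeal) : IsSquare (2 : w.adicCompletion M) := by
  haveI : Fact q.Prime := ⟨hq⟩
  obtain ⟨x, hx⟩ := (ZMod.exists_sq_eq_two_iff (p := q) (by omega)).2 (by omega)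
  obtain ⟨b, rfl⟩ := ZMod.intCast_surjective x
  have h1 : (q : ℤ) ∣ b ^ 2 - 2 := by
    rw [← ZMod.intCast_zmod_eq_zero_iff_dvd]
    push_cast
    rw [hx]
    ring
  have h2w : (2 : 𝓞 M) ∉ w.asIdeal := by
    intro h2
    apply w.isPrime.ne_top
    rw [Ideal.eq_top_iff_one]
    have h9 : ((q : 𝓞 M)) - 2 * ((q / 2 : ℕ) : 𝓞 M) = 1 := by
      have h10 : q = 2 * (q / 2) + 1 := by omega
      have h11 : (q : 𝓞 M) = 2 * ((q / 2 : ℕ) : 𝓞 M) + 1 := by
        exact_mod_cast congrArg (Nat.cast (R := 𝓞 M)) h10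
      rw [h11]
      ring
    rw [← h9]
    exact Ideal.sub_mem _ hqw (Ideal.mul_mem_right _ _ h2)
  have := sq_gen w hq hq8 hqw 2 b h1 (by
    push_cast
    exact h2w)
  simpa using this

end sqc

section top

variable {F M : Type} [Field F] [NumberField F] [Field M] [NumberField M] [Algebra F M]

/-- The 2-Selmer group over `M` is zero. -/
theorem selML {f : (𝓞 F)[X]} {J : Finset ℕ} {𝔮 : ℕ → Ideal (𝓞 F)}
    {Bw : HeightOneSpectrum (𝓞 F) → Prop} {T : M[X] → Prop} (H : DatT f J 𝔮)
    (hK : PKT F M M Bw T f J 𝔮) (hQ : DL F M f J 𝔮)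
    (hd3 : f.natDegree = 3) (hf2 : f.coeff 2 = 0) (hirr : Irreducible (fb M f))
    (hB2 : ∀ v, ¬ Bw v → (2 : 𝓞 F) ∉ v.asIdeal)
    (hDsq : ∀ w : HeightOneSpectrum (𝓞 M), Bw (below F w) → ∃ s : w.adicCompletion M,
      s ^ 2 = ((Dp J : ℕ) : w.adicCompletion M))
    (hTtop : ∀ p : M[X], (∀ w : HeightOneSpectrum (𝓞 M), Bw (below F w) →
      LocF (w.adicCompletion M) (fb M f) p) → T p) :
    SelZero ((fo M f).scaleRoots ((Dp J : ℕ) : 𝓞 M)) := by
  obtain ⟨g, W, S, r, Pp, hg, hdeg, hS, hcg, hJS⟩ := H.dat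
  obtain rfl : g = 1 := by omega
  have hmM : (fb M f).Monic := (H.mon.map _).map _
  have hdM : (fb M f).natDegree = f.natDegree := by
    unfold fb fF
    rw [((H.mon.map _).natDegree_map), H.mon.natDegree_map]
  have hfF : fF (fo M f) = fb M f := (fb_eq M f).symm
  haveI hfact : Fact (Irreducible (fb M f)) := ⟨hirr⟩
  haveI : FiniteDimensional M (AdjoinRoot (fb M f)) := hmM.finite_adjoinRoot
  haveI : CharZero (AdjoinRoot (fb M f)) := charZero_of_injective_algebraMap
    (algebraMap M (AdjoinRoot (fb M f))).injective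
  haveI : FiniteDimensional ℚ (AdjoinRoot (fb M f)) :=
    FiniteDimensional.trans ℚ M (AdjoinRoot (fb M f))
  haveI : NumberField (AdjoinRoot (fb M f)) := { }
  obtain ⟨θ, hθ⟩ : ∃ θ : AdjoinRoot (fb M f), θ = AdjoinRoot.root (fb M f) := ⟨_, rfl⟩
  have hroot : aeval θ (fb M f) = 0 := by
    rw [hθ, aeval_def]
    exact AdjoinRoot.eval₂_root _
  have hrank : Module.finrank M (AdjoinRoot (fb M f)) = f.natDegree := by
    rw [(AdjoinRoot.powerBasis hmM.ne_zero).finrank, AdjoinRoot.powerBasis_dim, hdM]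
  have hmin : minpoly M θ = fb M f := (minpoly.eq_of_irreducible_of_monic hirr hroot hmM).symm
  have htop : M⟮θ⟯ = ⊤ := by
    rw [Field.primitive_element_iff_minpoly_natDegree_eq, hmin, hdM, hrank]
  have hc : Cub M f θ := ⟨hroot, htop, hrank⟩
  have hG : IsGen 1 (fo M f) θ := hc.isGen H.mon hdeg
  have hqp : ∀ q ∈ S, q.Prime := fun q hq => (hS q hq).1
  obtain ⟨D, hD⟩ : ∃ D : ℕ, D = Dp J := ⟨_, rfl⟩
  rw [← hD]
  have hD0 : D ≠ 0 := by
    rw [hD, Dp, Finset.prod_ne_zero_iff]
    exact fun q hq => (hqp q (hJS hq)).ne_zero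
  have hD8 : D % 8 = 1 := by
    rw [hD]
    have : ∀ T : Finset ℕ, T ⊆ S → (∏ q ∈ T, q) % 8 = 1 := by
      intro T
      induction T using Finset.induction_on with
      | empty => intro _; rfl
      | insert a T ha ih =>
        intro hT
        rw [Finset.prod_insert ha, Nat.mul_mod, ih fun x hx => hT (Finset.mem_insert_of_mem hx),
          (hS a (hT (Finset.mem_insert_self _ _))).2.2.2.1]
    exact this J hJS
  have hDM : (D : M) ≠ 0 := Nat.cast_ne_zero.2 hD0
  have hDL : (D : AdjoinRoot (fb M f)) ≠ 0 := Nat.cast_ne_zero.2 hD0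
  have hmo : (fo M f).Monic := H.mon.map _
  have hdo : (fo M f).natDegree = 2 * 1 + 1 := by rw [H.mon.natDegree_map, hdeg]
  intro h hcop hnorm hloc hreal
  have hsc : fF ((fo M f).scaleRoots (D : 𝓞 M)) = (fb M f).scaleRoots (D : M) := by
    rw [fF_scale hmo, hfF]
  rw [hsc] at hcop hnorm ⊢
  -- the element
  obtain ⟨h', hh'⟩ : ∃ h' : M[X], h' = h.comp (C (D : M) * X) := ⟨_, rfl⟩
  have hval : aeval θ h' = aeval ((D : AdjoinRoot (fb M f)) * θ) h := by
    rw [hh', aeval_comp, map_mul, aeval_C, aeval_X, map_natCast]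
  have hrootD : aeval ((D : AdjoinRoot (fb M f)) * θ) ((fb M f).scaleRoots (D : M)) = 0 := by
    have e1 := scaleRoots_eval₂_mul (p := fb M f) (algebraMap M (AdjoinRoot (fb M f))) θ (D : M)
    have e2 : eval₂ (algebraMap M (AdjoinRoot (fb M f))) θ (fb M f) = 0 := by
      rw [← aeval_def]
      exact hroot
    rw [e2, mul_zero, map_natCast] at e1
    rw [aeval_def]
    exact e1
  have hne : aeval ((D : AdjoinRoot (fb M f)) * θ) h ≠ 0 := by
    intro h0
    obtain ⟨u, v, huv⟩ := hcop
    have := congrArg (aeval ((D : AdjoinRoot (fb M f)) * θ)) huv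
    rw [map_add, map_mul, map_mul, hrootD, h0, mul_zero, mul_zero, add_zero, map_one] at this
    exact zero_ne_one this
  -- the isomorphism
  have hirrD : Irreducible ((fb M f).scaleRoots (D : M)) := Pool.Agent.N170.PF.irr_scale hDM hirr
  haveI hfact' : Fact (Irreducible ((fb M f).scaleRoots (D : M))) := ⟨hirrD⟩
  have hmD : ((fb M f).scaleRoots (D : M)).Monic := (monic_scaleRoots_iff (D : M)).2 hmM
  haveI : FiniteDimensional M (AdjoinRoot ((fb M f).scaleRoots (D : M))) := hmD.finite_adjoinRoot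
  obtain ⟨φ, hφ⟩ : ∃ φ : AdjoinRoot ((fb M f).scaleRoots (D : M)) →ₐ[M] AdjoinRoot (fb M f),
      φ = AdjoinRoot.liftAlgHom _ (Algebra.ofId M _) ((D : AdjoinRoot (fb M f)) * θ) hrootD :=
    ⟨_, rfl⟩
  have hφmk : ∀ p : M[X], φ (AdjoinRoot.mk _ p) = aeval ((D : AdjoinRoot (fb M f)) * θ) p := by
    intro p
    have h1 := AdjoinRoot.liftAlgHom_mk ((fb M f).scaleRoots (D : M)) (Algebra.ofId M
      (AdjoinRoot (fb M f))) ((D : AdjoinRoot (fb M f)) * θ) hrootD p
    rw [Algebra.toRingHom_ofId, ← Polynomial.aeval_def] at h1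
    rw [hφ]
    exact h1
  have hφinj : Function.Injective φ := φ.toRingHom.injective
  have hrk : Module.finrank M (AdjoinRoot ((fb M f).scaleRoots (D : M))) =
      Module.finrank M (AdjoinRoot (fb M f)) := by
    rw [hrank, (AdjoinRoot.powerBasis hmD.ne_zero).finrank, AdjoinRoot.powerBasis_dim,
      natDegree_scaleRoots, hdM]
  have hφsurj : Function.Surjective φ :=
    (LinearMap.injective_iff_surjective_of_finrank_eq_finrank (f := φ.toLinearMap) hrk).1 hφinj
  obtain ⟨e, he⟩ : ∃ e : AdjoinRoot ((fb M f).scaleRoots (D : M)) ≃ₐ[M] AdjoinRoot (fb M f),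
      ∀ x, e x = φ x := ⟨AlgEquiv.ofBijective φ ⟨hφinj, hφsurj⟩, fun _ => rfl⟩
  have hnorm' : IsSquare (Algebra.norm M (aeval ((D : AdjoinRoot (fb M f)) * θ) h)) := by
    rw [← hφmk, ← he, Algebra.norm_eq_of_algEquiv]
    exact hnorm
  have hsq' : IsSquare (aeval ((D : AdjoinRoot (fb M f)) * θ) h) := by
    rw [← hval] at hne hnorm' ⊢
    refine hK _ θ hroot htop hrank h' hne hnorm' ⟨?_, ?_, ?_, ?_⟩
    · -- even valuations
      intro P c2 cq cu
      have hnat : ∀ n : ℕ, (n : 𝓞 M) ∈ (below M P).asIdeal → (n : 𝓞 (AdjoinRoot (fb M f))) ∈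
          P.asIdeal := by
        intro n hn
        have := (mem_below P _).1 hn
        rwa [map_natCast] at this
      have h2w : (2 : 𝓞 M) ∉ (below M P).asIdeal := by
        intro hm
        exact hB2 _ c2 (two_below (F := F) hm)
      have hDw : (D : 𝓞 M) ∉ (below M P).asIdeal := by
        intro hd
        rw [hD, Dp, Nat.cast_prod] at hd
        haveI := (below M P).isPrime
        obtain ⟨q, hq, hqw⟩ := (Ideal.IsPrime.prod_mem_iff).1 hd
        exact cq q hq (hnat q hqw)
      rw [hval]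
      refine ev_unit hG (lies_below P) h2w hDw h ?_ (hloc _) (by rw [← hval]; exact hne)
      rw [hfF]
      exact cu
    · -- the primes in `J`
      intro q hq P hPq v1
      have hb : (below F (below M P)).asIdeal = 𝔮 q := hPq
      have hqS := hJS hq
      obtain ⟨a1, a2, a3, a4, a5, a6, a7, a8, a9, a10, a11, a12, a13, a14, a15⟩ := hS q hqS
      obtain ⟨t1, t2, t3⟩ := q_topL H hc hq hb hQ v1
      haveI : Finite (𝓞 M ⧸ (below M P).asIdeal) :=
        Ideal.finiteQuotientOfFreeOfNeBot _ (below M P).ne_bot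
      haveI : Finite (𝓞 (AdjoinRoot (fb M f)) ⧸ P.asIdeal) :=
        Ideal.finiteQuotientOfFreeOfNeBot _ P.ne_bot
      have hmemw : ∀ n : ℕ, (n : 𝓞 M) ∈ (below M P).asIdeal → (n : 𝓞 F) ∈ 𝔮 q := by
        intro n hn
        rw [← hb, mem_below, map_natCast]
        exact hn
      have h2q : (2 : 𝓞 F) ∉ 𝔮 q := by
        intro hm
        have h9 : ((q : 𝓞 F)) - 2 * ((q / 2 : ℕ) : 𝓞 F) = 1 := by
          have h10 : q = 2 * (q / 2) + 1 := by omega
          have h11 : (q : 𝓞 F) = 2 * ((q / 2 : ℕ) : 𝓞 F) + 1 := by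
            exact_mod_cast congrArg (Nat.cast (R := 𝓞 F)) h10
          rw [h11]
          ring
        apply a6.ne_top
        rw [Ideal.eq_top_iff_one, ← h9]
        exact Ideal.sub_mem _ a7 (Ideal.mul_mem_right _ _ hm)
      have nat_mem : ∀ p : ℕ, p.Prime → (p : 𝓞 F) ∈ 𝔮 q → p = q := by
        intro p hp hpm
        by_contra hpq
        have hco : Nat.Coprime p q := (Nat.coprime_primes hp a1).2 hpq
        obtain ⟨u, v, huv⟩ := (Nat.isCoprime_iff_coprime.2 hco)
        apply a6.ne_top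
        rw [Ideal.eq_top_iff_one]
        have h9 : (1 : 𝓞 F) = (u : 𝓞 F) * (p : 𝓞 F) + (v : 𝓞 F) * (q : 𝓞 F) := by
          have := congrArg (Int.cast (R := 𝓞 F)) huv
          push_cast at this
          exact this.symm
        rw [h9]
        exact Ideal.add_mem _ (Ideal.mul_mem_left _ _ hpm) (Ideal.mul_mem_left _ _ a7)
      obtain ⟨D', hD'⟩ : ∃ D' : ℕ, D' = ∏ p ∈ J.erase q, p := ⟨_, rfl⟩
      have hDD : D = q * D' := by
        rw [hD, hD']
        exact (Finset.mul_prod_erase J (fun P => P) hq).symm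
      have hD'm : (D' : 𝓞 F) ∉ 𝔮 q := by
        intro hd
        rw [hD', Nat.cast_prod] at hd
        haveI := a6
        obtain ⟨p, hp, hpm⟩ := (Ideal.IsPrime.prod_mem_iff).1 hd
        have hp' := Finset.mem_erase.1 hp
        exact hp'.1 (nat_mem p (hqp p (hJS hp'.2)) hpm)
      have v2 : (below M P).valuation M 2 = 1 := by
        have := val_one (w := below M P) (a := 2) (fun hm => h2q (by
          have := hmemw 2 (by exact_mod_cast hm)
          exact_mod_cast this))
        rwa [two_cast] at this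
      have vD' : (below M P).valuation M (D' : M) = 1 := by
        have := val_one (w := below M P) (a := (D' : 𝓞 M)) (fun hm => hD'm (hmemw D' hm))
        simpa using this
      have s1 : Sq1 P (-1 : AdjoinRoot (fb M f)) := by
        have := t2 (-1) (by
          intro hm
          apply a6.ne_top
          rw [Ideal.eq_top_iff_one]
          have := Ideal.neg_mem_iff _ |>.2 hm
          simpa using this)
        simpa using this
      have s2 : Sq1 P (algebraMap M (AdjoinRoot (fb M f)) (D' : M)) := by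
        have := t2 (D' : 𝓞 F) hD'm
        simpa using this
      have hl := hloc (below M P)
      rw [hsc, hDD, Nat.cast_mul] at hl
      have e8 : (D : AdjoinRoot (fb M f)) = algebraMap M (AdjoinRoot (fb M f))
          ((q : M) * (D' : M)) := by
        rw [hDD]
        simp
      have e9 : (q : AdjoinRoot (fb M f)) = algebraMap M (AdjoinRoot (fb M f)) (q : M) := by simp
      rw [hval]
      rw [hval] at hne
      rw [e8] at hne ⊢
      rw [e9] at t1 ⊢
      have hcgM : ∀ j, (below M P).valuation M ((fb M f).coeff j - algebraMap (𝓞 M) M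
          ((X * (r q).map (algebraMap (𝓞 F) (𝓞 M))).coeff j)) < 1 := by
        intro j
        have e : (fb M f).coeff j - algebraMap (𝓞 M) M
            ((X * (r q).map (algebraMap (𝓞 F) (𝓞 M))).coeff j) =
            algebraMap (𝓞 M) M (algebraMap (𝓞 F) (𝓞 M) (f.coeff j - (X * r q).coeff j)) := by
          have e1 : X * (r q).map (algebraMap (𝓞 F) (𝓞 M)) = (X * r q).map
              (algebraMap (𝓞 F) (𝓞 M)) := by
            rw [Polynomial.map_mul, map_X]
          rw [e1, fb_eq, coeff_map, coeff_map, coeff_map, map_sub, map_sub]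
        rw [e]
        refine (HeightOneSpectrum.valuation_lt_one_iff_mem (K := M) (below M P) _).2 ?_
        refine (mem_below (K := F) (below M P) _).1 ?_
        rw [hb]
        exact hcg q hqS j
      by_cases hirw : Irreducible (((r q).map (algebraMap (𝓞 F) (𝓞 M))).map
          (Ideal.Quotient.mk (below M P).asIdeal))
      · exact LOC2 M (AdjoinRoot (fb M f)) (𝓞 M) (𝓞 (AdjoinRoot (fb M f))) (below M P) P
          (lies_below P) v2 1 (fb M f) h ((r q).map (algebraMap (𝓞 F) (𝓞 M))) (q : M) (D' : M) θ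
          hg hmM (by rw [hdM, hdeg]) (a8.map _) (by rw [a8.natDegree_map, a9]) hirw hcgM hroot v1
          t1 vD' s1 s2 hl hne
      · have hmemb : ∀ x : 𝓞 F, algebraMap (𝓞 F) (𝓞 M) x ∈ (below M P).asIdeal ↔ x ∈ 𝔮 q := by
          intro x
          rw [← hb]
          exact (mem_below (K := F) (below M P) x).symm
        have c1 : (r q).coeff 1 ∈ 𝔮 q := by
          have h9 := hcg q hqS 2
          rw [hf2, coeff_X_mul, zero_sub] at h9
          simpa using h9
        have c0 : (r q).coeff 0 ∉ 𝔮 q := coeff0_of_irr a6 a8 (by rw [a9]) a10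
        have hqw : (q : 𝓞 M) ∈ (below M P).asIdeal := by
          have := (hmemb (q : 𝓞 F)).2 a7
          rwa [map_natCast] at this
        have h2w : (2 : 𝓞 M) ∉ (below M P).asIdeal := by
          intro hm
          apply h2q
          rw [← hmemb, map_ofNat]
          exact hm
        exact spl P hmM (by rw [hdM, hd3]) (a8.map _) (by rw [a8.natDegree_map, a9])
          (by rw [coeff_map, hmemb]; exact c1) (by rw [coeff_map, hmemb]; exact c0) h2w hirw hcgM
          hroot v1 (sq_m1 _ a1 a4 hqw) (sq_2 _ a1 a4 hqw) t1 vD' s2 hl hne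
    · -- the bad primes
      rw [Algebra.algebraMap_self, Polynomial.map_id]
      refine hTtop _ fun w hw => ?_
      obtain ⟨δ, hδ⟩ := hDsq w hw
      haveI : CharZero (w.adicCompletion M) :=
        charZero_of_injective_algebraMap (algebraMap M (w.adicCompletion M)).injective
      have := map_locF hmo hdo hD0 δ (by rw [hδ, hD]) h (hloc w)
      rw [hfF, ← hh'] at this
      exact this
    · -- the real places
      intro σ
      letI : Algebra M ℝ := σ.toAlgebra
      have := map_locF (E := ℝ) hmo hdo hD0 (Real.sqrt D) (Real.sq_sqrt (Nat.cast_nonneg D)) h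
        (hreal σ)
      rw [hfF, ← hh'] at this
      exact this
  obtain ⟨y, hy⟩ := hsq'
  obtain ⟨z, rfl⟩ := hφsurj y
  obtain ⟨s, rfl⟩ := AdjoinRoot.mk_surjective z
  refine ⟨s, ?_⟩
  rw [← AdjoinRoot.mk_eq_zero]
  apply hφinj
  rw [map_zero, hφmk, map_sub, map_pow, sub_eq_zero]
  rw [hφmk] at hy
  rw [pow_two]
  exact hy

end top

end Pool.Agent.H459.TW2
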